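import Pool.Agent.Helper49.SO.Defs
import Pool.Agent.Helper49.UG.Arg
import Pool.Agent.Helper57.M.H

/-!
# SO1: a priori bound for the error term
-/

set_option autoImplicit false
open MeasureTheory Set Filter Topology
open Pool.Agent.Helper57.Zeta Pool.Agent.Helper57.LH Pool.Agent.Helper57.ED Pool.Agent.Helper54.LG
open Pool.Agent.Helper57.PC (IsNontrivialZero mult)
open Pool.Agent.Helper93.UG (zc IsOrd)
open Pool.Agent.Helper56.UG (fin_of zc_eq zc_mono zc_union)

namespace Pool.Agent.Helper49.SO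

lemma zc_empty : zc ∅ = 0 := Pool.Agent.Helper49.UG.zc_empty_of (by simp)

lemma zc_Ico_add {a b c : ℝ} (h1 : a ≤ b) (h2 : b ≤ c) : zc (Ico a c) = zc (Ico a b) + zc (Ico b c) := by
  rw [← Ico_union_Ico_eq_Ico h1 h2, zc_union (a := a) (b := c)]
  · intro x hx; exact ⟨hx.1, hx.2.le.trans h2⟩
  · intro x hx; exact ⟨h1.trans hx.1, hx.2.le⟩
  · rw [Set.disjoint_left]
    intro x hx hx2
    exact absurd hx.2 (not_lt.2 hx2.1)

theorem Nn_sub {a b : ℝ} (h : a ≤ b) : Nn b - Nn a = (zc (Ico a b) : ℝ) := by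
  unfold Nn
  rcases le_total 0 a with ha | ha
  · have hb := ha.trans h
    rw [Ico_eq_empty (not_lt.2 ha), Ico_eq_empty (not_lt.2 hb), zc_empty, zc_Ico_add ha h]
    push_cast
    ring
  · rcases le_total 0 b with hb | hb
    · rw [Ico_eq_empty (not_lt.2 ha), Ico_eq_empty (not_lt.2 hb), zc_empty, zc_Ico_add ha hb]
      push_cast
      ring
    · rw [Ico_eq_empty (not_lt.2 ha), Ico_eq_empty (not_lt.2 hb), zc_empty, zc_Ico_add h hb]
      push_cast
      ring

theorem Nn_mono : Monotone Nn := by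
  intro a b h
  have h1 := Nn_sub h
  have h2 : (0:ℝ) ≤ (zc (Ico a b) : ℝ) := Nat.cast_nonneg _
  linarith

lemma mn_meas : Measurable mn := by
  unfold mn
  have h1 : Measurable fun t : ℝ => t / (2 * Real.pi * Real.exp 1) := by fun_prop
  have h2 : Measurable fun t : ℝ => t / (2 * Real.pi) := by fun_prop
  exact h2.mul (Real.measurable_log.comp h1)

theorem Sn_meas : Measurable Sn := by
  unfold Sn
  exact Nn_mono.measurable.sub mn_meas

lemma mn_neg (t : ℝ) : mn (-t) = -mn t := by
  unfold mn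
  rw [neg_div, neg_div, Real.log_neg_eq_log]
  ring

/-- symmetry of the zeros -/
lemma zc_neg (t : ℝ) : zc (Ico t 0) = zc (Ioc 0 (-t)) := by
  unfold zc
  apply finsum_mem_eq_of_bijOn (fun ρ : ℂ => starRingEnd ℂ ρ)
  · refine ⟨?_, ?_, ?_⟩
    · rintro ρ ⟨h1, h2⟩
      refine ⟨?_, ?_⟩
      · rw [isNontrivialZero_iff] at h1 ⊢
        rw [xi_conj, h1, map_zero]
      · rw [Complex.conj_im]
        exact ⟨by linarith [h2.2], by linarith [h2.1]⟩
    · intro a _ b _ h
      have := congrArg (starRingEnd ℂ) h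
      simpa using this
    · rintro ρ ⟨h1, h2⟩
      refine ⟨starRingEnd ℂ ρ, ⟨?_, ?_⟩, by simp⟩
      · rw [isNontrivialZero_iff] at h1 ⊢
        rw [xi_conj, h1, map_zero]
      · rw [Complex.conj_im]
        exact ⟨by linarith [h2.2], by linarith [h2.1]⟩
  · rintro ρ ⟨h1, _⟩
    have h2 : IsNontrivialZero (starRingEnd ℂ ρ) := by
      rw [isNontrivialZero_iff] at h1 ⊢
      rw [xi_conj, h1, map_zero]
    rw [mult_eq h1, mult_eq h2, order_conj]

lemma NT_eq (t : ℝ) : NT t = (zc (Icc 0 t) : ℝ) := by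
  unfold NT
  rw [zc_eq (a := 0) (b := t) subset_rfl]
  push_cast
  apply Finset.sum_congr _ (fun _ _ => rfl)
  ext ρ
  rw [mem_Zf, Set.Finite.mem_toFinset]
  rfl

/-- one ordinate -/
lemma zc_near : ∃ C : ℝ, 0 < C ∧ ∀ (a b : ℝ), a ≤ b → b ≤ a + 1 → (zc (Icc a b) : ℝ) ≤ C * Real.log (4 + |a|) := by
  obtain ⟨C, hC, H⟩ := Pool.Agent.Helper24.UG.triv
  refine ⟨C, hC, fun a b h1 h2 => ?_⟩
  obtain ⟨F, hF, h3⟩ := Pool.Agent.Helper24.UG.zc_fin (I := Icc a b) subset_rfl
  rw [h3]
  refine H a F fun ρ hρ => ?_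
  have h4 := (hF ρ).1 hρ
  rw [abs_le]
  constructor <;> linarith [h4.1, h4.2]

lemma log_pow_le {x : ℝ} (hx : 0 ≤ x) : Real.log (4 + x) ≤ 4 * (1 + x) ^ (15 / 16 : ℝ) := by
  have h1 : Real.log (4 + x) ≤ (4 + x) ^ (15 / 16 : ℝ) / (15 / 16) := Real.log_le_rpow_div (by linarith) (by norm_num)
  have h2 : (4 + x) ^ (15 / 16 : ℝ) ≤ (4 * (1 + x)) ^ (15 / 16 : ℝ) :=
    Real.rpow_le_rpow (by linarith) (by linarith) (by norm_num)
  rw [Real.mul_rpow (by norm_num) (by linarith)] at h2
  have h3 : (4:ℝ) ^ (15 / 16 : ℝ) ≤ 3.75 := by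
    have h4 : ((4:ℝ) ^ (15 / 16 : ℝ)) ^ 16 ≤ (3.75:ℝ) ^ 16 := by
      rw [← Real.rpow_natCast, ← Real.rpow_mul (by norm_num)]
      norm_num
    exact le_of_pow_le_pow_left₀ (by norm_num) (by norm_num) h4
  have h5 : 0 < (1 + x) ^ (15 / 16 : ℝ) := by positivity
  nlinarith

theorem Sn_bd : ∃ C : ℝ, 0 < C ∧ ∀ t : ℝ, |Sn t| ≤ C * (1 + |t|) ^ (15 / 16 : ℝ) := by
  obtain ⟨C1, hC1, hN⟩ := Pool.Agent.Helper57.UV.NLP_holds
  obtain ⟨C2, hC2, hZ⟩ := zc_near
  have hpi := Real.pi_pos
  -- large positive t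
  have hpos : ∀ t : ℝ, 3 ≤ t → ∀ m : ℝ, (zc (Icc 0 t) : ℝ) - C2 * Real.log (4 + t) ≤ m → m ≤ (zc (Icc 0 t) : ℝ) →
      |m - mn t| ≤ (C1 + 4 * C2) * (1 + t) ^ (15 / 16 : ℝ) := by
    intro t ht m h1 h2
    have h3 := hN t ht
    rw [NT_eq] at h3
    have e : mn t = t / (2 * Real.pi) * (Real.log (t / (2 * Real.pi)) - 1) := by
      unfold mn
      rw [show t / (2 * Real.pi * Real.exp 1) = t / (2 * Real.pi) / Real.exp 1 by rw [div_div],
        Real.log_div (by positivity) (Real.exp_pos 1).ne', Real.log_exp]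
    rw [← e] at h3
    have h4 : t ^ (15 / 16 : ℝ) ≤ (1 + t) ^ (15 / 16 : ℝ) := Real.rpow_le_rpow (by linarith) (by linarith) (by norm_num)
    have h5 := log_pow_le (show 0 ≤ t by linarith)
    have h6 : C2 * Real.log (4 + t) ≤ 4 * C2 * (1 + t) ^ (15 / 16 : ℝ) := by
      have := mul_le_mul_of_nonneg_left h5 hC2.le
      linarith
    have h7 : C1 * t ^ (15 / 16 : ℝ) ≤ C1 * (1 + t) ^ (15 / 16 : ℝ) := mul_le_mul_of_nonneg_left h4 hC1
    rw [abs_le] at h3 ⊢
    constructor <;> linarith [h3.1, h3.2]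
  -- the middle
  have hmid : ∃ C3 : ℝ, 0 < C3 ∧ ∀ t : ℝ, |t| ≤ 3 → |Sn t| ≤ C3 := by
    have h1 : ∃ B : ℝ, ∀ t : ℝ, |t| ≤ 3 → |mn t| ≤ B := by
      have hc : ContinuousOn (fun t : ℝ => |mn t|) (Icc (-3) 3) := by
        apply ContinuousOn.abs
        apply Continuous.continuousOn
        have e : mn = fun t => Real.exp 1 * ((t / (2 * Real.pi * Real.exp 1)) * Real.log (t / (2 * Real.pi * Real.exp 1))) := by
          funext t
          unfold mn
          field_simp
        rw [e]
        exact continuous_const.mul (Real.continuous_mul_log.comp (by fun_prop))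
      obtain ⟨x, _, hx⟩ := isCompact_Icc.exists_isMaxOn ⟨(0:ℝ), by norm_num, by norm_num⟩ hc
      exact ⟨|mn x|, fun t ht => hx (abs_le.1 ht)⟩
    obtain ⟨B, hB⟩ := h1
    refine ⟨|Nn 3| + |Nn (-3)| + |B| + 1, by positivity, fun t ht => ?_⟩
    have h2 := hB t ht
    obtain ⟨h3, h4⟩ := abs_le.1 ht
    have h5 := Nn_mono h4
    have h6 := Nn_mono h3
    have h7 : |Nn t| ≤ |Nn 3| + |Nn (-3)| := by
      rw [abs_le]
      constructor
      · linarith [neg_abs_le (Nn (-3)), abs_nonneg (Nn 3)]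
      · linarith [le_abs_self (Nn 3), abs_nonneg (Nn (-3))]
    unfold Sn
    refine (abs_sub _ _).trans ?_
    linarith [le_abs_self B]
  obtain ⟨C4, hC4, hmid⟩ := hmid
  refine ⟨C1 + 4 * C2 + C4, by positivity, fun t => ?_⟩
  have hp : 1 ≤ (1 + |t|) ^ (15 / 16 : ℝ) := Real.one_le_rpow (by linarith [abs_nonneg t]) (by norm_num)
  rcases le_total |t| 3 with h | h
  · refine (hmid t h).trans ?_
    nlinarith
  · have key : |Sn t| ≤ (C1 + 4 * C2) * (1 + |t|) ^ (15 / 16 : ℝ) := by
      rcases le_total 0 t with h0 | h0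
      · rw [abs_of_nonneg h0] at h ⊢
        unfold Sn Nn
        apply hpos t h
        · rw [Ico_eq_empty (not_lt.2 h0), zc_empty, Nat.cast_zero, sub_zero]
          have h1 := hZ t t le_rfl (by linarith)
          rw [abs_of_nonneg h0] at h1
          have h2 : zc (Icc 0 t) = zc (Ico 0 t) + zc (Icc t t) := by
            have e : Icc 0 t = Ico 0 t ∪ Icc t t := by
              ext x
              simp only [mem_Icc, mem_union, mem_Ico]
              constructor
              · rintro ⟨a, b⟩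
                rcases lt_or_eq_of_le b with c | c
                · exact Or.inl ⟨a, c⟩
                · exact Or.inr ⟨c.ge, c.le⟩
              · rintro (⟨a, b⟩ | ⟨a, b⟩)
                · exact ⟨a, b.le⟩
                · exact ⟨h0.trans a, b⟩
            rw [e, zc_union (a := 0) (b := t)]
            · intro x hx; exact ⟨hx.1, hx.2.le⟩
            · intro x hx; exact ⟨h0.trans hx.1, hx.2⟩
            · rw [Set.disjoint_left]
              intro x hx hx2
              exact absurd hx.2 (not_lt.2 hx2.1)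
          rw [h2]
          push_cast
          linarith
        · rw [Ico_eq_empty (not_lt.2 h0), zc_empty, Nat.cast_zero, sub_zero]
          exact_mod_cast zc_mono (a := 0) (b := t) Ico_subset_Icc_self subset_rfl
      · have h0' : 0 ≤ -t := by linarith
        rw [abs_of_nonpos h0] at h ⊢
        have e : Sn t = -((zc (Ioc 0 (-t)) : ℝ) - mn (-t)) := by
          unfold Sn Nn
          rw [mn_neg, Ico_eq_empty (not_lt.2 h0), zc_empty, zc_neg]
          push_cast
          ring
        rw [e, abs_neg]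
        apply hpos (-t) h
        · have h1 := hZ 0 0 le_rfl (by norm_num)
          have h2 : zc (Icc 0 (-t)) = zc (Icc 0 0) + zc (Ioc 0 (-t)) := by
            have e : Icc 0 (-t) = Icc 0 0 ∪ Ioc 0 (-t) := by
              ext x
              simp only [mem_Icc, mem_union, mem_Ioc]
              constructor
              · rintro ⟨a, b⟩
                rcases lt_or_eq_of_le a with c | c
                · exact Or.inr ⟨c, b⟩
                · exact Or.inl ⟨c.le, c.ge⟩
              · rintro (⟨a, b⟩ | ⟨a, b⟩)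
                · exact ⟨a, b.trans h0'⟩
                · exact ⟨a.le, b⟩
            rw [e, zc_union (a := 0) (b := -t)]
            · intro x hx; exact ⟨hx.1, hx.2.trans h0'⟩
            · intro x hx; exact ⟨hx.1.le, hx.2⟩
            · rw [Set.disjoint_left]
              intro x hx hx2
              exact absurd hx.2 (not_le.2 hx2.1)
          rw [h2]
          push_cast
          have h3 : Real.log (4 + |(0:ℝ)|) ≤ Real.log (4 + -t) := by
            rw [abs_zero]
            exact Real.log_le_log (by norm_num) (by linarith)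
          have h4 := mul_le_mul_of_nonneg_left h3 hC2.le
          linarith
        · exact_mod_cast zc_mono (a := 0) (b := -t) Ioc_subset_Icc_self subset_rfl
    refine key.trans ?_
    nlinarith

end Pool.Agent.Helper49.SO
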