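import Pool.Agent.Helper49.SO.Defs

/-!
# SO11a: the prime sum
-/

set_option autoImplicit false
open MeasureTheory Set Filter Topology
open Pool.Agent.Helper57.Zeta Pool.Agent.Helper57.LH Pool.Agent.Helper57.ED Pool.Agent.Helper54.LG

namespace Pool.Agent.Helper49.SO.PB

open Pool.Agent.Helper49.SO

/-- coefficient -/
noncomputable def pc (X : ℝ) (n : ℕ) : ℝ :=
  ArithmeticFunction.vonMangoldt n / (Real.sqrt n * Real.log n) * (1 - Real.log n / X) ^ 2

lemma Pr_eq (X y : ℝ) : Pr X y = 1 / Real.pi * ∑ n ∈ Finset.range (⌊Real.exp X⌋₊ + 1), pc X n * Real.sin (y * Real.log n) := rfl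

lemma pc_zero {X : ℝ} {n : ℕ} (h : n ≤ 1) : pc X n = 0 := by
  unfold pc
  interval_cases n <;> simp

lemma pc_bd {X : ℝ} (hX : 0 < X) {n : ℕ} (hn : n ∈ Finset.range (⌊Real.exp X⌋₊ + 1)) :
    0 ≤ pc X n ∧ pc X n ≤ 1 ∧ Real.log n ≤ X := by
  have hle : Real.log n ≤ X := by
    rcases Nat.eq_zero_or_pos n with rfl | h0
    · simpa using hX.le
    · rw [Finset.mem_range] at hn
      have h1 : (n : ℝ) ≤ Real.exp X := (Nat.le_floor_iff (Real.exp_pos X).le).1 (by omega)
      have h2 : (0:ℝ) < n := by exact_mod_cast h0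
      exact (Real.log_le_iff_le_exp h2).2 h1
  rcases Nat.lt_or_ge 1 n with h | h
  · have hn1 : (1:ℝ) < n := by exact_mod_cast h
    have hl : 0 < Real.log n := Real.log_pos hn1
    have hs : 1 ≤ Real.sqrt n := Real.one_le_sqrt.2 hn1.le
    have hV : ArithmeticFunction.vonMangoldt n ≤ Real.log n := ArithmeticFunction.vonMangoldt_le_log
    have hV0 : 0 ≤ ArithmeticFunction.vonMangoldt n := ArithmeticFunction.vonMangoldt_nonneg
    have h1 : 0 ≤ Real.log n / X := by positivity
    have h2 : Real.log n / X ≤ 1 := (div_le_one hX).2 hle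
    unfold pc
    refine ⟨by positivity, ?_, hle⟩
    have h3 : ArithmeticFunction.vonMangoldt n / (Real.sqrt n * Real.log n) ≤ 1 := by
      rw [div_le_one (by positivity)]
      nlinarith
    have h4 : (1 - Real.log n / X) ^ 2 ≤ 1 := by nlinarith
    have h5 : 0 ≤ ArithmeticFunction.vonMangoldt n / (Real.sqrt n * Real.log n) := by positivity
    calc _ ≤ (1:ℝ) * 1 := mul_le_mul h3 h4 (sq_nonneg _) zero_le_one
      _ = 1 := one_mul 1
  · rw [pc_zero h]
    exact ⟨le_rfl, zero_le_one, hle⟩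

lemma card_le {X : ℝ} (hX : 0 ≤ X) : ((Finset.range (⌊Real.exp X⌋₊ + 1)).card : ℝ) ≤ 2 * Real.exp X := by
  rw [Finset.card_range]
  push_cast
  have h1 := Nat.floor_le (Real.exp_pos X).le
  have h2 := Real.one_le_exp hX
  linarith

theorem Pr_cont (X : ℝ) : Continuous (Pr X) := by
  unfold Pr
  fun_prop

theorem Pr_bd {X : ℝ} (hX : 0 < X) (y : ℝ) : |Pr X y| ≤ Real.exp X := by
  have hpi3 := Real.pi_gt_three
  rw [Pr_eq, abs_mul, abs_of_pos (by positivity)]
  have h1 : |∑ n ∈ Finset.range (⌊Real.exp X⌋₊ + 1), pc X n * Real.sin (y * Real.log n)| ≤ 2 * Real.exp X := by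
    refine (Finset.abs_sum_le_sum_abs _ _).trans (le_trans ?_ (card_le hX.le))
    rw [Finset.card_eq_sum_ones]
    push_cast
    apply Finset.sum_le_sum
    intro n hn
    obtain ⟨h1, h2, _⟩ := pc_bd hX hn
    rw [abs_mul, abs_of_nonneg h1]
    calc _ ≤ (1:ℝ) * 1 := mul_le_mul h2 (Real.abs_sin_le_one _) (abs_nonneg _) zero_le_one
      _ = 1 := one_mul 1
  calc 1 / Real.pi * _ ≤ 1 / Real.pi * (2 * Real.exp X) := mul_le_mul_of_nonneg_left h1 (by positivity)
    _ ≤ 1 / 2 * (2 * Real.exp X) := by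
        apply mul_le_mul_of_nonneg_right _ (by positivity)
        apply one_div_le_one_div_of_le (by norm_num)
        linarith
    _ = _ := by ring

theorem Pr_int {X : ℝ} (hX : 0 < X) (t₁ t₂ : ℝ) : |∫ y in t₁..t₂, Pr X y| ≤ 4 * Real.exp X := by
  have hpi3 := Real.pi_gt_three
  have e : ∫ y in t₁..t₂, Pr X y = 1 / Real.pi * ∑ n ∈ Finset.range (⌊Real.exp X⌋₊ + 1),
      pc X n * ∫ y in t₁..t₂, Real.sin (y * Real.log n) := by
    simp_rw [Pr_eq]
    rw [intervalIntegral.integral_const_mul, intervalIntegral.integral_finsetSum]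
    · congr 1
      exact Finset.sum_congr rfl fun n _ => intervalIntegral.integral_const_mul _ _
    · intro n _
      apply Continuous.intervalIntegrable
      fun_prop
  rw [e, abs_mul, abs_of_pos (by positivity)]
  have h1 : |∑ n ∈ Finset.range (⌊Real.exp X⌋₊ + 1), pc X n * ∫ y in t₁..t₂, Real.sin (y * Real.log n)| ≤
      4 * (2 * Real.exp X) := by
    have h2 : ∀ n ∈ Finset.range (⌊Real.exp X⌋₊ + 1), |pc X n * ∫ y in t₁..t₂, Real.sin (y * Real.log n)| ≤ 4 := by
      intro n hn
      obtain ⟨h1, h2, _⟩ := pc_bd hX hn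
      rcases Nat.lt_or_ge 1 n with h | h
      · have hn2 : (2:ℝ) ≤ n := by exact_mod_cast h
        have hl : 1 / 2 ≤ Real.log n := by
          have h3 := Real.log_two_gt_d9
          have h4 := Real.log_le_log (by norm_num) hn2
          linarith
        have hl0 : Real.log n ≠ 0 := by linarith
        have h5 : ∫ y in t₁..t₂, Real.sin (y * Real.log n) =
            (Real.log n)⁻¹ * (Real.cos (t₁ * Real.log n) - Real.cos (t₂ * Real.log n)) := by
          rw [intervalIntegral.integral_comp_mul_right (fun y => Real.sin y) hl0, integral_sin, smul_eq_mul]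
        rw [h5, abs_mul, abs_mul, abs_of_nonneg h1, abs_of_pos (inv_pos.2 (by linarith))]
        have h6 : (Real.log n)⁻¹ ≤ 2 := by
          rw [inv_le_comm₀ (by linarith) (by norm_num)]
          linarith
        have h7 : |Real.cos (t₁ * Real.log n) - Real.cos (t₂ * Real.log n)| ≤ 2 := by
          refine (abs_sub _ _).trans ?_
          linarith [Real.abs_cos_le_one (t₁ * Real.log n), Real.abs_cos_le_one (t₂ * Real.log n)]
        have h8 : 0 < (Real.log n)⁻¹ := inv_pos.2 (by linarith)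
        calc _ ≤ 1 * (2 * 2) := by gcongr
          _ = (4:ℝ) := by norm_num
      · rw [pc_zero h, zero_mul, abs_zero]
        norm_num
    calc _ ≤ ∑ n ∈ Finset.range (⌊Real.exp X⌋₊ + 1), |pc X n * ∫ y in t₁..t₂, Real.sin (y * Real.log n)| :=
          Finset.abs_sum_le_sum_abs _ _
      _ ≤ ∑ n ∈ Finset.range (⌊Real.exp X⌋₊ + 1), (4:ℝ) := Finset.sum_le_sum h2
      _ = 4 * ((Finset.range (⌊Real.exp X⌋₊ + 1)).card : ℝ) := by rw [Finset.sum_const, nsmul_eq_mul, mul_comm]
      _ ≤ _ := mul_le_mul_of_nonneg_left (card_le hX.le) (by norm_num)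
  calc 1 / Real.pi * _ ≤ 1 / Real.pi * (4 * (2 * Real.exp X)) := mul_le_mul_of_nonneg_left h1 (by positivity)
    _ ≤ 1 / 2 * (4 * (2 * Real.exp X)) := by
        apply mul_le_mul_of_nonneg_right _ (by positivity)
        apply one_div_le_one_div_of_le (by norm_num)
        linarith
    _ = _ := by ring

theorem Pr_sub {X : ℝ} (hX : 0 < X) (y₁ y₂ : ℝ) : Pr X y₂ - Pr X y₁ = X / (2 * Real.pi) * ∫ w in y₁..y₂, SS X w := by
  have hpi := Real.pi_pos
  have e : ∫ w in y₁..y₂, SS X w = 2 / X * ∑ n ∈ Finset.range (⌊Real.exp X⌋₊ + 1),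
      ArithmeticFunction.vonMangoldt n / Real.sqrt n * (1 - Real.log n / X) ^ 2 * ∫ w in y₁..y₂, Real.cos (w * Real.log n) := by
    unfold SS
    rw [intervalIntegral.integral_const_mul, intervalIntegral.integral_finsetSum]
    · congr 1
      exact Finset.sum_congr rfl fun n _ => intervalIntegral.integral_const_mul _ _
    · intro n _
      apply Continuous.intervalIntegrable
      fun_prop
  rw [e, Pr_eq, Pr_eq, ← mul_sub, ← Finset.sum_sub_distrib, ← mul_assoc]
  have e2 : X / (2 * Real.pi) * (2 / X) = 1 / Real.pi := by field_simp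
  rw [e2]
  congr 1
  apply Finset.sum_congr rfl
  intro n _
  rcases Nat.lt_or_ge 1 n with h | h
  · have hn2 : (1:ℝ) < n := by exact_mod_cast h
    have hl0 : Real.log n ≠ 0 := (Real.log_pos hn2).ne'
    rw [intervalIntegral.integral_comp_mul_right (fun y => Real.cos y) hl0, integral_cos, smul_eq_mul]
    unfold pc
    rw [← div_div]
    have : Real.sqrt n ≠ 0 := by positivity
    field_simp
  · have hV : ArithmeticFunction.vonMangoldt n = 0 := by interval_cases n <;> simp
    rw [pc_zero h, hV]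
    simp

theorem Pr_half (y : ℝ) : Pr (1 / 2) y = 0 := by
  rw [Pr_eq]
  have h1 : ⌊Real.exp (1 / 2)⌋₊ = 1 := by
    rw [Nat.floor_eq_iff (Real.exp_pos _).le]
    constructor
    · rw [Nat.cast_one]
      exact Real.one_le_exp (by norm_num)
    · have h2 : Real.exp (1 / 2) ^ 2 < 2 ^ 2 := by
        rw [← Real.exp_nat_mul]
        have := Real.exp_one_lt_d9
        norm_num at this ⊢
        linarith
      have := lt_of_pow_lt_pow_left₀ 2 (by norm_num) h2
      push_cast
      linarith
  rw [h1, Finset.sum_eq_zero, mul_zero]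
  intro n hn
  rw [Finset.mem_range] at hn
  rw [pc_zero (by omega), zero_mul]

end Pool.Agent.Helper49.SO.PB
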