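import Pool.Agent.Helper49.SO.Smooth
import Pool.Agent.Helper49.SO.PrB
import Pool.Agent.Helper69.UG.NxDev

/-!
# SO7: the sum `DS + Pr + Edge / (2 π)` is almost constant
-/

set_option autoImplicit false
open MeasureTheory Set Filter Topology
open Pool.Agent.Helper57.Zeta Pool.Agent.Helper57.LH Pool.Agent.Helper57.ED Pool.Agent.Helper54.LG
open Pool.Agent.Helper93.UG (zc)
open Pool.Agent.Helper24.WS (Edge int_window)

namespace Pool.Agent.Helper49.SO

/-- SO3 -/
def StMM : Prop := ∃ C : ℝ, 0 < C ∧ ∀ X t : ℝ, 1 / 2 ≤ X → 1 ≤ t →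
    |X * MM X t - Real.log (t / (2 * Real.pi))| ≤ C * (t ^ (-(3 / 2) : ℝ) + Real.exp (X / 2) / t ^ 2)

/-- SO4 -/
def StMn : Prop := ∃ C : ℝ, 0 < C ∧ ∀ X y₁ y₂ : ℝ, 1 / 2 ≤ X → 1 ≤ y₁ → 1 ≤ y₂ →
    Integrable (fun s => kX X s * (mn (y₂ + s) - mn (y₁ + s))) ∧
    |(∫ s, kX X s * (mn (y₂ + s) - mn (y₁ + s))) - (mn y₂ - mn y₁)| ≤ C

theorem mn_deriv {y : ℝ} (hy : 0 < y) : HasDerivAt mn (1 / (2 * Real.pi) * Real.log (y / (2 * Real.pi))) y := by
  have hpi := Real.pi_pos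
  have he := Real.exp_pos 1
  have h1 : HasDerivAt (fun t : ℝ => t / (2 * Real.pi)) (1 / (2 * Real.pi)) y := (hasDerivAt_id y).div_const _
  have h2 : HasDerivAt (fun t : ℝ => t / (2 * Real.pi * Real.exp 1)) (1 / (2 * Real.pi * Real.exp 1)) y :=
    (hasDerivAt_id y).div_const _
  have h3 := h1.mul (h2.log (by positivity))
  have e : mn = fun t : ℝ => t / (2 * Real.pi) * Real.log (t / (2 * Real.pi * Real.exp 1)) := rfl
  rw [e]
  refine h3.congr_deriv ?_
  rw [show y / (2 * Real.pi * Real.exp 1) = y / (2 * Real.pi) / Real.exp 1 by rw [div_div],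
    Real.log_div (by positivity) he.ne', Real.log_exp]
  field_simp
  ring

lemma log_ii {a b : ℝ} (ha : 0 < a) (hab : a ≤ b) :
    IntervalIntegrable (fun w => Real.log (w / (2 * Real.pi))) volume a b := by
  have hpi := Real.pi_pos
  apply ContinuousOn.intervalIntegrable
  rw [uIcc_of_le hab]
  apply ContinuousOn.log (by fun_prop)
  intro t ht
  have : 0 < t := by linarith [ht.1]
  positivity

lemma mn_sub {a b : ℝ} (ha : 0 < a) (hab : a ≤ b) :
    mn b - mn a = 1 / (2 * Real.pi) * ∫ w in a..b, Real.log (w / (2 * Real.pi)) := by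
  rw [← intervalIntegral.integral_const_mul]
  symm
  apply intervalIntegral.integral_eq_sub_of_hasDerivAt
  · intro x hx
    rw [uIcc_of_le hab] at hx
    exact mn_deriv (by linarith [hx.1])
  · exact (log_ii ha hab).const_mul _

lemma NX_ii {X : ℝ} (hX : 0 < X) (a b : ℝ) : IntervalIntegrable (Pool.Agent.Helper69.UG.NX X) volume a b := by
  have key : ∀ a b : ℝ, a ≤ b → IntervalIntegrable (Pool.Agent.Helper69.UG.NX X) volume a b := by
    intro a b hab
    have h := Pool.Agent.Helper24.UG.NX_intervalIntegrable hX ((a + b) / 2) ((b - a) / 2)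
    rw [← intervalIntegrable_iff_integrableOn_Icc_of_le (by linarith)] at h
    have h2 := h.comp_sub_right ((a + b) / 2)
    simp only [add_sub_cancel] at h2
    convert h2 using 1 <;> ring
  rcases le_total a b with h | h
  · exact key a b h
  · exact (key b a h).symm

lemma rpow_int {a b : ℝ} (ha : 1 ≤ a) (hab : a ≤ b) : IntervalIntegrable (fun w : ℝ => w ^ (-(3 / 2) : ℝ)) volume a b ∧
    ∫ w in a..b, w ^ (-(3 / 2) : ℝ) ≤ 2 := by
  have h0 : (0:ℝ) ∉ uIcc a b := by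
    rw [uIcc_of_le hab]
    intro h
    linarith [h.1]
  refine ⟨intervalIntegral.intervalIntegrable_rpow (Or.inr h0), ?_⟩
  rw [integral_rpow (Or.inr ⟨by norm_num, h0⟩)]
  have h1 : (0:ℝ) ≤ b ^ (-(3 / 2) + 1 : ℝ) := Real.rpow_nonneg (by linarith) _
  have h2 : a ^ (-(3 / 2) + 1 : ℝ) ≤ 1 := Real.rpow_le_one_of_one_le_of_nonpos ha (by norm_num)
  rw [show (-(3 / 2) + 1 : ℝ) = -(1 / 2) by norm_num] at h1 h2 ⊢
  rw [div_le_iff_of_neg (by norm_num)]
  linarith

lemma sq_int {a b : ℝ} (ha : 1 ≤ a) (hab : a ≤ b) : IntervalIntegrable (fun w : ℝ => 1 / w ^ 2) volume a b ∧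
    ∫ w in a..b, 1 / w ^ 2 ≤ 1 / a := by
  have hc : ContinuousOn (fun w : ℝ => 1 / w ^ 2) (uIcc a b) := by
    rw [uIcc_of_le hab]
    apply ContinuousOn.div continuousOn_const (by fun_prop)
    intro x hx
    have : 0 < x := by linarith [hx.1]
    positivity
  refine ⟨hc.intervalIntegrable, ?_⟩
  have hd : ∀ x ∈ uIcc a b, HasDerivAt (fun w : ℝ => -(1 / w)) (1 / x ^ 2) x := by
    intro x hx
    rw [uIcc_of_le hab] at hx
    have hx0 : x ≠ 0 := by linarith [hx.1]
    have h1 := (hasDerivAt_inv hx0).neg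
    simp only [one_div]
    refine h1.congr_deriv ?_
    ring
  rw [intervalIntegral.integral_eq_sub_of_hasDerivAt hd hc.intervalIntegrable]
  have h1 : 0 ≤ 1 / b := by
    have : 0 < b := by linarith
    positivity
  linarith

theorem QQ_const_of (hMM : StMM) (hmn : StMn) : ∃ C : ℝ, 0 < C ∧ ∀ X y₁ y₂ : ℝ, 1 / 2 ≤ X → 1 ≤ y₁ → y₁ ≤ y₂ →
    |QQ X y₂ - QQ X y₁| ≤ C * (1 + Real.exp (X / 2) / y₁) := by
  obtain ⟨C1, hC1, hMM⟩ := hMM
  obtain ⟨C2, hC2, hmn⟩ := hmn
  have hpi := Real.pi_pos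
  have hpi3 := Real.pi_gt_three
  refine ⟨2 * C1 + C2, by positivity, fun X y₁ y₂ hX hy1 hy => ?_⟩
  have hX0 : 0 < X := by linarith
  have hy10 : 0 < y₁ := by linarith
  obtain ⟨_, hD⟩ := DS_sub hX hy
  obtain ⟨_, hs⟩ := hmn X y₁ y₂ hX hy1 (hy1.trans hy)
  have hP := PB.Pr_sub hX0 y₁ y₂
  have hE := int_window hX0 y₁ y₂
  obtain ⟨r1, r2⟩ := rpow_int hy1 hy
  obtain ⟨q1, q2⟩ := sq_int hy1 hy
  -- integrability of `MM`
  have hb : ∀ w ∈ Icc y₁ y₂, |X * MM X w - Real.log (w / (2 * Real.pi))| ≤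
      C1 * (w ^ (-(3 / 2) : ℝ) + Real.exp (X / 2) * (1 / w ^ 2)) := by
    intro w hw
    refine (hMM X w hX (hy1.trans hw.1)).trans (le_of_eq ?_)
    ring
  have iL := log_ii hy10 hy
  have iG : IntervalIntegrable (fun w => C1 * (w ^ (-(3 / 2) : ℝ) + Real.exp (X / 2) * (1 / w ^ 2))) volume y₁ y₂ :=
    (r1.add (q1.const_mul _)).const_mul _
  have mM : Measurable (MM X) := Pool.Agent.Helper69.UG.MM_meas X hX0
  have iD : IntervalIntegrable (fun w => X * MM X w - Real.log (w / (2 * Real.pi))) volume y₁ y₂ := by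
    refine iG.mono_fun' ?_ ?_
    · apply Measurable.aestronglyMeasurable
      exact (mM.const_mul X).sub (Real.measurable_log.comp (measurable_id.div_const _))
    · rw [uIoc_of_le hy]
      filter_upwards [ae_restrict_mem measurableSet_Ioc] with w hw
      exact hb w ⟨hw.1.le, hw.2⟩
  have iM : IntervalIntegrable (MM X) volume y₁ y₂ := by
    have h1 : MM X = fun w => X⁻¹ * ((X * MM X w - Real.log (w / (2 * Real.pi))) + Real.log (w / (2 * Real.pi))) := by
      funext w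
      rw [sub_add_cancel, ← mul_assoc, inv_mul_cancel₀ hX0.ne', one_mul]
    rw [h1]
    exact (iD.add iL).const_mul _
  have iN := NX_ii hX0 y₁ y₂
  have iS : IntervalIntegrable (SS X) volume y₁ y₂ := (Pool.Agent.Helper69.UG.SS_cont X).intervalIntegrable _ _
  have hE2 : (∫ w in y₁..y₂, Pool.Agent.Helper69.UG.NX X w) - ((∫ w in y₁..y₂, MM X w) - ∫ w in y₁..y₂, SS X w) =
      -(1 / X) * (Edge X y₂ - Edge X y₁) := by
    rw [← hE, ← intervalIntegral.integral_sub iM iS, ← intervalIntegral.integral_sub iN (iM.sub iS)]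
  have hmn2 := mn_sub hy10 hy
  -- the identity
  have key : QQ X y₂ - QQ X y₁ = 1 / (2 * Real.pi) * (∫ w in y₁..y₂, (X * MM X w - Real.log (w / (2 * Real.pi)))) -
      ((∫ s, kX X s * (mn (y₂ + s) - mn (y₁ + s))) - (mn y₂ - mn y₁)) := by
    rw [intervalIntegral.integral_sub (iM.const_mul X) iL, intervalIntegral.integral_const_mul, hmn2]
    have e1 : QQ X y₂ - QQ X y₁ = (DS X y₂ - DS X y₁) + (Pr X y₂ - Pr X y₁) + (Edge X y₂ - Edge X y₁) / (2 * Real.pi) := by
      unfold QQ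
      ring
    have e2 : Edge X y₂ - Edge X y₁ = -X * ((∫ w in y₁..y₂, Pool.Agent.Helper69.UG.NX X w) -
        ((∫ w in y₁..y₂, MM X w) - ∫ w in y₁..y₂, SS X w)) := by
      rw [hE2]
      field_simp
    rw [e1, hD, hP, e2]
    field_simp
    ring
  rw [key]
  have h1 : |∫ w in y₁..y₂, (X * MM X w - Real.log (w / (2 * Real.pi)))| ≤ C1 * (2 + Real.exp (X / 2) * (1 / y₁)) := by
    calc _ ≤ ∫ w in y₁..y₂, C1 * (w ^ (-(3 / 2) : ℝ) + Real.exp (X / 2) * (1 / w ^ 2)) := by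
          rw [← Real.norm_eq_abs]
          refine intervalIntegral.norm_integral_le_of_norm_le hy ?_ iG
          filter_upwards with w hw
          exact hb w ⟨hw.1.le, hw.2⟩
      _ = C1 * ((∫ w in y₁..y₂, w ^ (-(3 / 2) : ℝ)) + Real.exp (X / 2) * ∫ w in y₁..y₂, 1 / w ^ 2) := by
          rw [intervalIntegral.integral_const_mul, intervalIntegral.integral_add r1 (q1.const_mul _),
            intervalIntegral.integral_const_mul]
      _ ≤ _ := by gcongr
  have h2 : |1 / (2 * Real.pi) * ∫ w in y₁..y₂, (X * MM X w - Real.log (w / (2 * Real.pi)))| ≤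
      C1 * (2 + Real.exp (X / 2) * (1 / y₁)) := by
    rw [abs_mul, abs_of_pos (by positivity)]
    have h3 : 1 / (2 * Real.pi) ≤ 1 := by
      rw [div_le_one (by positivity)]
      linarith
    calc _ ≤ 1 * |∫ w in y₁..y₂, (X * MM X w - Real.log (w / (2 * Real.pi)))| :=
          mul_le_mul_of_nonneg_right h3 (abs_nonneg _)
      _ ≤ _ := by rw [one_mul]; exact h1
  refine (abs_sub _ _).trans ?_
  have h4 : 0 ≤ Real.exp (X / 2) / y₁ := by positivity
  have h5 : C1 * (2 + Real.exp (X / 2) * (1 / y₁)) ≤ 2 * C1 * (1 + Real.exp (X / 2) / y₁) := by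
    have : Real.exp (X / 2) * (1 / y₁) = Real.exp (X / 2) / y₁ := by ring
    rw [this]
    nlinarith
  nlinarith

end Pool.Agent.Helper49.SO
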