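import Pool.Agent.Helper49.SO.Quasi

/-!
# SO8, SO9: averages over `[y, y + T]` and the formula for the smoothed error term
-/

set_option autoImplicit false
open MeasureTheory Set Filter Topology
open Pool.Agent.Helper57.Zeta Pool.Agent.Helper57.LH Pool.Agent.Helper57.ED Pool.Agent.Helper54.LG
open Pool.Agent.Helper93.UG (zc)
open Pool.Agent.Helper24.WS (Edge)

namespace Pool.Agent.Helper49.SO

/-- SO5 -/
def StEdge : Prop := ∃ C : ℝ, 0 < C ∧ ∀ X : ℝ, 1 / 2 ≤ X → ∀ t H : ℝ, 0 ≤ H →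
    IntervalIntegrable (Edge X) volume t (t + H) ∧
    |∫ y in t..(t + H), Edge X y| ≤ C * (X * Real.exp (X / 2)) * Real.log (4 + |t| + H)

lemma Sn_ii (a b : ℝ) : IntervalIntegrable Sn volume a b := by
  have key : ∀ a b : ℝ, a ≤ b → IntervalIntegrable Sn volume a b := by
    intro a b hab
    obtain ⟨C, hC, hS⟩ := Sn_bd
    rw [intervalIntegrable_iff_integrableOn_Icc_of_le hab]
    refine Measure.integrableOn_of_bounded (M := C * (1 + (|a| + |b|)) ^ (15 / 16 : ℝ)) isCompact_Icc.measure_lt_top.ne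
      Sn_meas.aestronglyMeasurable ?_
    filter_upwards [ae_restrict_mem measurableSet_Icc] with w hw
    rw [Real.norm_eq_abs]
    refine (hS w).trans ?_
    have h1 : |w| ≤ |a| + |b| := by
      rw [abs_le]
      constructor
      · linarith [neg_abs_le a, abs_nonneg b, hw.1]
      · linarith [le_abs_self b, abs_nonneg a, hw.2]
    gcongr
  rcases le_total a b with h | h
  · exact key a b h
  · exact (key b a h).symm

/-- integral of `Sn` over a short interval, any direction -/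
lemma Sn_int_bd {C : ℝ} (hC : 0 < C) (hS : ∀ t : ℝ, |Sn t| ≤ C * (1 + |t|) ^ (15 / 16 : ℝ)) (a b M : ℝ) (ha : |a| ≤ M) (hb : |b| ≤ M) :
    |∫ y in a..b, Sn y| ≤ C * (1 + M) ^ (15 / 16 : ℝ) * |b - a| := by
  rw [← Real.norm_eq_abs]
  apply intervalIntegral.norm_integral_le_of_norm_le_const
  intro x hx
  rw [Real.norm_eq_abs]
  refine (hS x).trans ?_
  have h1 : |x| ≤ M := by
    have h2 := uIoc_subset_uIcc hx
    rw [mem_uIcc] at h2
    rw [abs_le] at ha hb ⊢
    rcases h2 with h2 | h2 <;> constructor <;> linarith [h2.1, h2.2, ha.1, ha.2, hb.1, hb.2]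
  have h0 : 0 ≤ M := (abs_nonneg a).trans ha
  gcongr

lemma prod_int {X : ℝ} (hX : 1 / 2 ≤ X) (t H : ℝ) : Integrable (Function.uncurry fun (y s : ℝ) => kX X s * Sn (y + s))
    ((volume.restrict (Ioc t (t + H))).prod volume) := by
  obtain ⟨C, hC, hS⟩ := Sn_bd
  obtain ⟨C', hC', hk⟩ := kX_mom
  obtain ⟨M, hM⟩ : ∃ M : ℝ, M = 1 + (|t| + |H|) := ⟨_, rfl⟩
  have hM0 : 0 < M := by rw [hM]; positivity
  have h1 : Integrable (fun p : ℝ × ℝ => (C * M ^ (15 / 16 : ℝ)) * (kX X p.2 * (1 + |p.2|) ^ (31 / 32 : ℝ)))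
      ((volume.restrict (Ioc t (t + H))).prod volume) := by
    have h2 : Integrable (fun _ : ℝ => C * M ^ (15 / 16 : ℝ)) (volume.restrict (Ioc t (t + H))) :=
      integrable_const _
    exact h2.mul_prod ((hk X hX).1)
  refine h1.mono' ?_ ?_
  · apply AEStronglyMeasurable.mul
    · exact ((kX_cont X).comp continuous_snd).aestronglyMeasurable
    · exact (Sn_meas.comp (measurable_fst.add measurable_snd)).aestronglyMeasurable
  · have h3 : ∀ᵐ p : ℝ × ℝ ∂((volume.restrict (Ioc t (t + H))).prod volume), p.1 ∈ Ioc t (t + H) := by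
      have h4 : (volume.restrict (Ioc t (t + H))).prod (volume : Measure ℝ) =
          ((volume : Measure ℝ).prod volume).restrict (Ioc t (t + H) ×ˢ univ) := by
        rw [← Measure.prod_restrict, Measure.restrict_univ]
      rw [h4]
      filter_upwards [ae_restrict_mem (measurableSet_Ioc.prod MeasurableSet.univ)] with p hp
      exact hp.1
    filter_upwards [h3] with p hp
    have hk0 := kX_nonneg (show 0 ≤ X by linarith) p.2
    have hp1 : |p.1| ≤ |t| + |H| := by
      rw [abs_le]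
      constructor
      · linarith [neg_abs_le t, abs_nonneg H, hp.1]
      · linarith [le_abs_self t, le_abs_self H, hp.2]
    simp only [Function.uncurry]
    rw [norm_mul, Real.norm_of_nonneg hk0, Real.norm_eq_abs]
    have h5 : |Sn (p.1 + p.2)| ≤ C * M ^ (15 / 16 : ℝ) * (1 + |p.2|) ^ (31 / 32 : ℝ) := by
      calc |Sn (p.1 + p.2)| ≤ C * (1 + |p.1 + p.2|) ^ (15 / 16 : ℝ) := hS _
        _ ≤ C * (M * (1 + |p.2|)) ^ (15 / 16 : ℝ) := by
            have h6 := one_add_mul p.1 p.2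
            have h7 : (1 + |p.1|) * (1 + |p.2|) ≤ M * (1 + |p.2|) := by
              apply mul_le_mul_of_nonneg_right _ (by positivity)
              rw [hM]
              linarith
            have h8 := h6.trans h7
            gcongr
        _ = C * M ^ (15 / 16 : ℝ) * (1 + |p.2|) ^ (15 / 16 : ℝ) := by
            rw [Real.mul_rpow (by positivity) (by positivity)]
            ring
        _ ≤ _ := mul_le_mul_of_nonneg_left
            (Real.rpow_le_rpow_of_exponent_le (by linarith [abs_nonneg p.2]) (by norm_num)) (by positivity)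
    calc kX X p.2 * |Sn (p.1 + p.2)| ≤ kX X p.2 * (C * M ^ (15 / 16 : ℝ) * (1 + |p.2|) ^ (31 / 32 : ℝ)) := by gcongr
      _ = _ := by ring

/-- exchange of the average and the smoothing -/
lemma DS_avg {X : ℝ} (hX : 1 / 2 ≤ X) (t : ℝ) {H : ℝ} (hH : 0 ≤ H) : IntervalIntegrable (DS X) volume t (t + H) ∧
    ∫ y in t..(t + H), DS X y = ∫ s, kX X s * ∫ y in t..(t + H), Sn (y + s) := by
  have h := prod_int hX t H
  have hle : t ≤ t + H := by linarith
  refine ⟨?_, ?_⟩
  · rw [intervalIntegrable_iff_integrableOn_Ioc_of_le hle]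
    exact h.integral_prod_left
  · rw [intervalIntegral.integral_of_le hle]
    unfold DS
    rw [integral_integral_swap h]
    congr 1
    funext s
    rw [integral_const_mul, intervalIntegral.integral_of_le hle]

theorem avg_diff : ∃ T₀ : ℝ, ∀ T : ℝ, T₀ ≤ T → ∀ X t : ℝ, 1 / 2 ≤ X → 1 ≤ t → t ≤ 4 * T →
    |(∫ y in t..(t + T), DS X y) - ∫ y in t..(t + T), Sn y| ≤ T := by
  obtain ⟨C, hC, hS⟩ := Sn_bd
  obtain ⟨C', hC', hk⟩ := kX_mom
  have e1 : ∀ᶠ T : ℝ in atTop, 28 * C * C' ≤ T ^ (1 / 32 : ℝ) :=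
    (tendsto_rpow_atTop (by norm_num)).eventually_ge_atTop _
  obtain ⟨T₀, hT₀⟩ := eventually_atTop.mp (e1.and (eventually_ge_atTop 1))
  refine ⟨T₀, fun T hT X t hX ht1 ht2 => ?_⟩
  obtain ⟨hbig, hT1⟩ := hT₀ T hT
  have hT0 : 0 < T := by linarith
  obtain ⟨_, h2⟩ := DS_avg hX t hT0.le
  obtain ⟨k1, k2⟩ := kX_mass (show 0 < X by linarith)
  obtain ⟨k3, k4⟩ := hk X hX
  -- the inner difference
  obtain ⟨I, hI⟩ : ∃ I : ℝ → ℝ, I = fun s => (∫ y in t..(t + T), Sn (y + s)) - ∫ y in t..(t + T), Sn y := ⟨_, rfl⟩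
  have hIe : ∀ s, I s = (∫ y in (t + T)..(t + T + s), Sn y) - ∫ y in t..(t + s), Sn y := by
    intro s
    rw [hI]
    simp only
    rw [intervalIntegral.integral_comp_add_right (fun y => Sn y)]
    have a1 := intervalIntegral.integral_add_adjacent_intervals (Sn_ii t (t + s)) (Sn_ii (t + s) (t + T + s))
    have a2 := intervalIntegral.integral_add_adjacent_intervals (Sn_ii t (t + T)) (Sn_ii (t + T) (t + T + s))
    linarith
  have hTp : 0 < T ^ (31 / 32 : ℝ) := Real.rpow_pos_of_pos hT0 _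
  have hbd : ∀ s, |I s| ≤ 28 * C * T ^ (31 / 32 : ℝ) * (1 + |s|) ^ (31 / 32 : ℝ) := by
    intro s
    have hs0 := abs_nonneg s
    rcases le_total |s| T with hs | hs
    · rw [hIe]
      have b1 := Sn_int_bd hC hS (t + T) (t + T + s) (6 * T) (by rw [abs_of_pos (by linarith)]; linarith)
        (by rw [abs_le] at hs ⊢; constructor <;> linarith [hs.1, hs.2])
      have b2 := Sn_int_bd hC hS t (t + s) (6 * T) (by rw [abs_of_pos (by linarith)]; linarith)
        (by rw [abs_le] at hs ⊢; constructor <;> linarith [hs.1, hs.2])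
      rw [show t + T + s - (t + T) = s by ring] at b1
      rw [show t + s - t = s by ring] at b2
      refine (abs_sub _ _).trans ((add_le_add b1 b2).trans ?_)
      have c1 : (1 + 6 * T) ^ (15 / 16 : ℝ) ≤ 7 * T ^ (15 / 16 : ℝ) := by
        calc (1 + 6 * T) ^ (15 / 16 : ℝ) ≤ (7 * T) ^ (15 / 16 : ℝ) := by
              apply Real.rpow_le_rpow (by positivity) (by linarith) (by norm_num)
          _ = 7 ^ (15 / 16 : ℝ) * T ^ (15 / 16 : ℝ) := Real.mul_rpow (by norm_num) hT0.le
          _ ≤ 7 * T ^ (15 / 16 : ℝ) := by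
              apply mul_le_mul_of_nonneg_right _ (by positivity)
              calc (7:ℝ) ^ (15 / 16 : ℝ) ≤ 7 ^ (1:ℝ) := Real.rpow_le_rpow_of_exponent_le (by norm_num) (by norm_num)
                _ = 7 := Real.rpow_one 7
      have c2 : |s| ≤ T ^ (1 / 32 : ℝ) * (1 + |s|) ^ (31 / 32 : ℝ) := by
        rcases eq_or_lt_of_le hs0 with h0 | h0
        · rw [← h0]; positivity
        calc |s| = |s| ^ (1 / 32 : ℝ) * |s| ^ (31 / 32 : ℝ) := by
              rw [← Real.rpow_add h0]; norm_num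
          _ ≤ T ^ (1 / 32 : ℝ) * (1 + |s|) ^ (31 / 32 : ℝ) := by
              gcongr
              linarith
      have c3 : T ^ (15 / 16 : ℝ) * T ^ (1 / 32 : ℝ) = T ^ (31 / 32 : ℝ) := by
        rw [← Real.rpow_add hT0]; norm_num
      calc C * (1 + 6 * T) ^ (15 / 16 : ℝ) * |s| + C * (1 + 6 * T) ^ (15 / 16 : ℝ) * |s|
          = 2 * C * (1 + 6 * T) ^ (15 / 16 : ℝ) * |s| := by ring
        _ ≤ 2 * C * (7 * T ^ (15 / 16 : ℝ)) * (T ^ (1 / 32 : ℝ) * (1 + |s|) ^ (31 / 32 : ℝ)) := by gcongr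
        _ = 14 * C * (T ^ (15 / 16 : ℝ) * T ^ (1 / 32 : ℝ)) * (1 + |s|) ^ (31 / 32 : ℝ) := by ring
        _ ≤ _ := by
            rw [c3]
            have : 0 ≤ C * T ^ (31 / 32 : ℝ) * (1 + |s|) ^ (31 / 32 : ℝ) := by positivity
            nlinarith
    · have hs1 : 0 < |s| := by linarith
      rw [hI]
      simp only
      rw [intervalIntegral.integral_comp_add_right (fun y => Sn y)]
      have b1 := Sn_int_bd hC hS (t + s) (t + T + s) (6 * |s|)
        (by
          have := abs_add_le t s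
          rw [abs_of_pos (show 0 < t by linarith)] at this
          linarith)
        (by
          have := abs_add_le (t + T) s
          rw [abs_of_pos (show 0 < t + T by linarith)] at this
          linarith)
      have b2 := Sn_int_bd hC hS t (t + T) (6 * |s|) (by rw [abs_of_pos (by linarith)]; linarith)
        (by rw [abs_of_pos (by linarith)]; linarith)
      rw [show t + T + s - (t + s) = T by ring, abs_of_pos hT0] at b1
      rw [show t + T - t = T by ring, abs_of_pos hT0] at b2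
      refine (abs_sub _ _).trans ((add_le_add b1 b2).trans ?_)
      have c1 : (1 + 6 * |s|) ^ (15 / 16 : ℝ) ≤ 7 * |s| ^ (15 / 16 : ℝ) := by
        calc (1 + 6 * |s|) ^ (15 / 16 : ℝ) ≤ (7 * |s|) ^ (15 / 16 : ℝ) := by
              apply Real.rpow_le_rpow (by positivity) (by linarith) (by norm_num)
          _ = 7 ^ (15 / 16 : ℝ) * |s| ^ (15 / 16 : ℝ) := Real.mul_rpow (by norm_num) hs0
          _ ≤ 7 * |s| ^ (15 / 16 : ℝ) := by
              apply mul_le_mul_of_nonneg_right _ (by positivity)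
              calc (7:ℝ) ^ (15 / 16 : ℝ) ≤ 7 ^ (1:ℝ) := Real.rpow_le_rpow_of_exponent_le (by norm_num) (by norm_num)
                _ = 7 := Real.rpow_one 7
      have c2 : T * |s| ^ (15 / 16 : ℝ) ≤ T ^ (31 / 32 : ℝ) * (1 + |s|) ^ (31 / 32 : ℝ) := by
        have d1 : T = T ^ (31 / 32 : ℝ) * T ^ (1 / 32 : ℝ) := by
          rw [← Real.rpow_add hT0]; norm_num
        have d2 : |s| ^ (31 / 32 : ℝ) = |s| ^ (15 / 16 : ℝ) * |s| ^ (1 / 32 : ℝ) := by
          rw [← Real.rpow_add hs1]; norm_num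
        calc T * |s| ^ (15 / 16 : ℝ) = T ^ (31 / 32 : ℝ) * (|s| ^ (15 / 16 : ℝ) * T ^ (1 / 32 : ℝ)) := by
              conv_lhs => rw [d1]
              ring
          _ ≤ T ^ (31 / 32 : ℝ) * (|s| ^ (15 / 16 : ℝ) * |s| ^ (1 / 32 : ℝ)) := by gcongr
          _ = T ^ (31 / 32 : ℝ) * |s| ^ (31 / 32 : ℝ) := by rw [d2]
          _ ≤ _ := by
              gcongr
              linarith
      calc C * (1 + 6 * |s|) ^ (15 / 16 : ℝ) * T + C * (1 + 6 * |s|) ^ (15 / 16 : ℝ) * T
          = 2 * C * (1 + 6 * |s|) ^ (15 / 16 : ℝ) * T := by ring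
        _ ≤ 2 * C * (7 * |s| ^ (15 / 16 : ℝ)) * T := by gcongr
        _ = 14 * C * (T * |s| ^ (15 / 16 : ℝ)) := by ring
        _ ≤ 14 * C * (T ^ (31 / 32 : ℝ) * (1 + |s|) ^ (31 / 32 : ℝ)) := by gcongr
        _ ≤ _ := by
            have : 0 ≤ C * T ^ (31 / 32 : ℝ) * (1 + |s|) ^ (31 / 32 : ℝ) := by positivity
            nlinarith
  -- measurability of the inner integral
  have hprod := prod_int hX t T
  have him : Integrable fun s => kX X s * ∫ y in t..(t + T), Sn (y + s) := by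
    have := hprod.integral_prod_right
    refine this.congr (Eventually.of_forall fun s => ?_)
    simp only [Function.uncurry]
    rw [integral_const_mul, intervalIntegral.integral_of_le (by linarith)]
  have e : (∫ y in t..(t + T), DS X y) - ∫ y in t..(t + T), Sn y = ∫ s, kX X s * I s := by
    have e2 : ∫ s, kX X s * (∫ y in t..(t + T), Sn y) = ∫ y in t..(t + T), Sn y := by
      rw [integral_mul_const, k2, one_mul]
    rw [h2]
    conv_lhs => rw [← e2]
    rw [← integral_sub him (k1.mul_const _)]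
    congr 1
    funext s
    rw [hI]
    ring
  rw [e]
  have h3 : ∀ s, ‖kX X s * I s‖ ≤ 28 * C * T ^ (31 / 32 : ℝ) * (kX X s * (1 + |s|) ^ (31 / 32 : ℝ)) := by
    intro s
    have hk0 := kX_nonneg (show 0 ≤ X by linarith) s
    rw [norm_mul, Real.norm_of_nonneg hk0, Real.norm_eq_abs]
    calc kX X s * |I s| ≤ kX X s * (28 * C * T ^ (31 / 32 : ℝ) * (1 + |s|) ^ (31 / 32 : ℝ)) := by
          gcongr
          exact hbd s
      _ = _ := by ring
  have h4 : |∫ s, kX X s * I s| ≤ ∫ s, 28 * C * T ^ (31 / 32 : ℝ) * (kX X s * (1 + |s|) ^ (31 / 32 : ℝ)) := by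
    rw [← Real.norm_eq_abs]
    exact norm_integral_le_of_norm_le (k3.const_mul _) (Eventually.of_forall h3)
  rw [integral_const_mul] at h4
  refine h4.trans ?_
  calc 28 * C * T ^ (31 / 32 : ℝ) * ∫ s, kX X s * (1 + |s|) ^ (31 / 32 : ℝ)
      ≤ 28 * C * T ^ (31 / 32 : ℝ) * C' := by gcongr
    _ = (28 * C * C') * T ^ (31 / 32 : ℝ) := by ring
    _ ≤ T ^ (1 / 32 : ℝ) * T ^ (31 / 32 : ℝ) := by gcongr
    _ = T := by rw [← Real.rpow_add hT0]; norm_num

end Pool.Agent.Helper49.SO
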