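import Pool.Agent.Helper24.WS.Edge
import Pool.Agent.Helper24.UG.Win

/-!
# SO: large values of `S(t)` of both signs: definitions
-/

set_option autoImplicit false
open MeasureTheory Set Filter Topology
open Pool.Agent.Helper57.Zeta Pool.Agent.Helper57.LH Pool.Agent.Helper57.ED Pool.Agent.Helper54.LG
open Pool.Agent.Helper93.UG (zc)
open Pool.Agent.Helper24.WS (Pk Edge EdgeM)

namespace Pool.Agent.Helper49.SO

/-- signed number of the zeros with ordinate between `0` and `t` -/
noncomputable def Nn (t : ℝ) : ℝ := (zc (Ico 0 t) : ℝ) - (zc (Ico t 0) : ℝ)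

/-- main term of the number of zeros -/
noncomputable def mn (t : ℝ) : ℝ := t / (2 * Real.pi) * Real.log (t / (2 * Real.pi * Real.exp 1))

/-- the error term, `S(t) + O(1)` -/
noncomputable def Sn (t : ℝ) : ℝ := Nn t - mn t

/-- the kernel of scale `1/X` -/
noncomputable def kX (X s : ℝ) : ℝ := X / (2 * Real.pi) * qk 0 (X * s)

/-- smooth version of `Sn` -/
noncomputable def DS (X y : ℝ) : ℝ := ∫ s, kX X s * Sn (y + s)

/-- the prime sum, the integral of `X / (2 π) SS X` -/
noncomputable def Pr (X y : ℝ) : ℝ :=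
  1 / Real.pi * ∑ n ∈ Finset.range (⌊Real.exp X⌋₊ + 1),
    ArithmeticFunction.vonMangoldt n / (Real.sqrt n * Real.log n) * (1 - Real.log n / X) ^ 2 * Real.sin (y * Real.log n)

/-- the digamma term `Re ψ(1/4 + it/2) - log π` -/
noncomputable def Gd (t : ℝ) : ℝ :=
  (∑' n : ℕ, (1 / ((n:ℝ) + 1) - 2 * ((2 * n + 1 / 2) / ((2 * n + 1 / 2) ^ 2 + t ^ 2)))) -
    (Real.log Real.pi + Real.eulerMascheroniConstant)

/-- antiderivative of `Pk a` -/
noncomputable def P2 (a b : ℝ) : ℝ := -∫ r in (0:ℝ)..a, (a - r) * qk r b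

/-- the sum which is almost constant -/
noncomputable def QQ (X y : ℝ) : ℝ := DS X y + Pr X y + Edge X y / (2 * Real.pi)

end Pool.Agent.Helper49.SO
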