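import Pool.Agent.Helper49.SO.Form
import Pool.Agent.Helper57.SO.MMasy
import Pool.Agent.Helper26.SO.Mn
import Pool.Agent.Helper64.SO.Edge
import Pool.Agent.Helper24.SO.EdgeMean
import Pool.Agent.Helper7.SO.Pr
import Pool.Agent.Helper60.SO.Tail

/-!
# SO13: large values of the error term of both signs
-/

set_option autoImplicit false
open MeasureTheory Set Filter Topology
open Pool.Agent.Helper57.Zeta Pool.Agent.Helper57.LH Pool.Agent.Helper57.ED Pool.Agent.Helper54.LG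
open Pool.Agent.Helper93.UG (zc)
open Pool.Agent.Helper69.UG (XX Adm wt VV wt_nonneg)
open Pool.Agent.Helper24.WS (Edge)

namespace Pool.Agent.Helper49.SO

theorem formula : ∃ C T₀ : ℝ, 0 < C ∧ ∀ T X y : ℝ, T₀ ≤ T → 1 / 2 ≤ X →
    X ≤ Real.log T / 16 → T / 2 ≤ y → y ≤ 3 * T → |DS X y + Pr X y + Edge X y / (2 * Real.pi)| ≤ C :=
  formula_of MM_asy Pool.Agent.Helper26.SO.mn_smooth int_Edge

/-- from the values of `Sn` in `[T + 1, 2 T - 1]` to its smooth version -/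
lemma DS_ge : ∃ T₀ : ℝ, ∀ T : ℝ, T₀ ≤ T → ∀ X y e m : ℝ, 1 / 2 ≤ X → 5 / 4 * T - 1 ≤ y → y ≤ 7 / 4 * T + 1 →
    (e = 1 ∨ e = -1) → 0 ≤ m → (∀ z, T + 1 ≤ z → z ≤ 2 * T - 1 → -m ≤ e * Sn z) → -m - 1 ≤ e * DS X y := by
  obtain ⟨C, hC, hS⟩ := Sn_bd
  obtain ⟨C', hC', hk⟩ := kX_mom
  have e1 : ∀ᶠ T : ℝ in atTop, 60 * C * C' ≤ T ^ (1 / 32 : ℝ) :=
    (tendsto_rpow_atTop (by norm_num)).eventually_ge_atTop _
  obtain ⟨T₀, hT₀⟩ := eventually_atTop.mp (e1.and (eventually_ge_atTop 64))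
  refine ⟨T₀, fun T hT X y e m hX hy1 hy2 he hm hz => ?_⟩
  obtain ⟨hbig, hT64⟩ := hT₀ T hT
  have hT0 : 0 < T := by linarith
  have hTp : 0 < T ^ (1 / 32 : ℝ) := Real.rpow_pos_of_pos hT0 _
  obtain ⟨k1, k2⟩ := kX_mass (show 0 < X by linarith)
  obtain ⟨k3, k4⟩ := hk X hX
  have hD := DS_int hX y
  have habs : |e| = 1 := by rcases he with rfl | rfl <;> simp
  have hpt : ∀ s, kX X s * (-m) - 60 * C * (T ^ (1 / 32 : ℝ))⁻¹ * (kX X s * (1 + |s|) ^ (31 / 32 : ℝ)) ≤
      e * (kX X s * Sn (y + s)) := by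
    intro s
    have hk0 := kX_nonneg (show 0 ≤ X by linarith) s
    have hs0 := abs_nonneg s
    have key : -m - 60 * C * (T ^ (1 / 32 : ℝ))⁻¹ * (1 + |s|) ^ (31 / 32 : ℝ) ≤ e * Sn (y + s) := by
      rcases le_total |s| (T / 16) with h | h
      · have h1 := abs_le.1 h
        have h2 := hz (y + s) (by linarith [h1.1]) (by linarith [h1.2])
        have h3 : 0 ≤ 60 * C * (T ^ (1 / 32 : ℝ))⁻¹ * (1 + |s|) ^ (31 / 32 : ℝ) := by positivity
        linarith
      · have hs1 : 0 < |s| := by linarith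
        have h1 : |e * Sn (y + s)| ≤ C * (1 + |y + s|) ^ (15 / 16 : ℝ) := by
          rw [abs_mul, habs, one_mul]
          exact hS _
        have h2 : 1 + |y + s| ≤ 30 * |s| := by
          have := abs_add_le y s
          rw [abs_of_pos (show 0 < y by linarith)] at this
          linarith
        have h3 : (1 + |y + s|) ^ (15 / 16 : ℝ) ≤ 30 * |s| ^ (15 / 16 : ℝ) := by
          calc (1 + |y + s|) ^ (15 / 16 : ℝ) ≤ (30 * |s|) ^ (15 / 16 : ℝ) := by
                apply Real.rpow_le_rpow (by positivity) h2 (by norm_num)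
            _ = 30 ^ (15 / 16 : ℝ) * |s| ^ (15 / 16 : ℝ) := Real.mul_rpow (by norm_num) hs0
            _ ≤ 30 * |s| ^ (15 / 16 : ℝ) := by
                apply mul_le_mul_of_nonneg_right _ (by positivity)
                calc (30:ℝ) ^ (15 / 16 : ℝ) ≤ 30 ^ (1:ℝ) := Real.rpow_le_rpow_of_exponent_le (by norm_num) (by norm_num)
                  _ = 30 := Real.rpow_one 30
        have h4 : T ^ (1 / 32 : ℝ) ≤ 2 * |s| ^ (1 / 32 : ℝ) := by
          calc T ^ (1 / 32 : ℝ) ≤ (16 * |s|) ^ (1 / 32 : ℝ) := by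
                apply Real.rpow_le_rpow hT0.le (by linarith) (by norm_num)
            _ = 16 ^ (1 / 32 : ℝ) * |s| ^ (1 / 32 : ℝ) := Real.mul_rpow (by norm_num) hs0
            _ ≤ 2 * |s| ^ (1 / 32 : ℝ) := by
                apply mul_le_mul_of_nonneg_right _ (by positivity)
                calc (16:ℝ) ^ (1 / 32 : ℝ) ≤ 16 ^ (1 / 4 : ℝ) := Real.rpow_le_rpow_of_exponent_le (by norm_num) (by norm_num)
                  _ = 2 := by
                      rw [show (16:ℝ) = 2 ^ (4:ℝ) by norm_num, ← Real.rpow_mul (by norm_num)]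
                      norm_num
        have h5 : |s| ^ (15 / 16 : ℝ) * T ^ (1 / 32 : ℝ) ≤ 2 * (1 + |s|) ^ (31 / 32 : ℝ) := by
          have d2 : |s| ^ (31 / 32 : ℝ) = |s| ^ (15 / 16 : ℝ) * |s| ^ (1 / 32 : ℝ) := by
            rw [← Real.rpow_add hs1]; norm_num
          calc |s| ^ (15 / 16 : ℝ) * T ^ (1 / 32 : ℝ) ≤ |s| ^ (15 / 16 : ℝ) * (2 * |s| ^ (1 / 32 : ℝ)) := by gcongr
            _ = 2 * |s| ^ (31 / 32 : ℝ) := by rw [d2]; ring
            _ ≤ _ := by
                gcongr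
                linarith
        have h6 : |s| ^ (15 / 16 : ℝ) ≤ 2 * (T ^ (1 / 32 : ℝ))⁻¹ * (1 + |s|) ^ (31 / 32 : ℝ) := by
          rw [← le_div_iff₀ hTp] at h5
          refine h5.trans (le_of_eq ?_)
          field_simp
        have h7 : |e * Sn (y + s)| ≤ 60 * C * (T ^ (1 / 32 : ℝ))⁻¹ * (1 + |s|) ^ (31 / 32 : ℝ) := by
          calc _ ≤ C * (1 + |y + s|) ^ (15 / 16 : ℝ) := h1
            _ ≤ C * (30 * (2 * (T ^ (1 / 32 : ℝ))⁻¹ * (1 + |s|) ^ (31 / 32 : ℝ))) := by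
                gcongr
                exact h3.trans (mul_le_mul_of_nonneg_left h6 (by norm_num))
            _ = _ := by ring
        linarith [(abs_le.1 h7).1]
    calc _ = kX X s * (-m - 60 * C * (T ^ (1 / 32 : ℝ))⁻¹ * (1 + |s|) ^ (31 / 32 : ℝ)) := by ring
      _ ≤ kX X s * (e * Sn (y + s)) := mul_le_mul_of_nonneg_left key hk0
      _ = _ := by ring
  have h1 := integral_mono ((k1.mul_const (-m)).sub (k3.const_mul (60 * C * (T ^ (1 / 32 : ℝ))⁻¹))) (hD.const_mul e) hpt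
  simp only [Pi.sub_apply] at h1
  rw [integral_sub (k1.mul_const (-m)) (k3.const_mul (60 * C * (T ^ (1 / 32 : ℝ))⁻¹)), integral_mul_const, k2,
    integral_const_mul, integral_const_mul] at h1
  have h2 : 60 * C * (T ^ (1 / 32 : ℝ))⁻¹ * ∫ s, kX X s * (1 + |s|) ^ (31 / 32 : ℝ) ≤ 1 := by
    calc _ ≤ 60 * C * (T ^ (1 / 32 : ℝ))⁻¹ * C' := by gcongr
      _ = (60 * C * C') * (T ^ (1 / 32 : ℝ))⁻¹ := by ring
      _ ≤ T ^ (1 / 32 : ℝ) * (T ^ (1 / 32 : ℝ))⁻¹ := by gcongr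
      _ = 1 := mul_inv_cancel₀ hTp.ne'
  have h3 : DS X y = ∫ s, kX X s * Sn (y + s) := rfl
  rw [h3]
  linarith

theorem core : ∃ κ T₀ : ℝ, 0 < κ ∧ ∀ T : ℝ, T₀ ≤ T → ∀ e : ℝ, (e = 1 ∨ e = -1) →
    ∃ t : ℝ, T + 1 ≤ t ∧ t ≤ 2 * T - 1 ∧ e * Sn t ≤ -(κ * √(Real.log T / Real.log (Real.log T))) := by
  obtain ⟨C1, T1, hC1, hF⟩ := formula
  obtain ⟨T2, hDS⟩ := DS_ge
  obtain ⟨κ, c3, T3, hκ, hP⟩ := pr_mean
  obtain ⟨C4, hC4, hPb⟩ := Pr_bd
  obtain ⟨C5, c5, T5, hC5, hEm⟩ := edge_mean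
  obtain ⟨c6, T6, hW⟩ := wt_tail
  obtain ⟨c7, T7, hmass⟩ := Pool.Agent.Helper60.UG.wmass
  obtain ⟨c8, T8, hrr⟩ := Pool.Agent.Helper60.UG.rr_bd
  have hpi := Real.pi_pos
  have hpi3 := Real.pi_gt_three
  have hl := Real.tendsto_log_atTop
  have hll : Tendsto (fun T : ℝ => Real.log (Real.log T)) atTop atTop := hl.comp hl
  -- `log T / log log T → ∞`
  have hq : Tendsto (fun T : ℝ => Real.log T / Real.log (Real.log T)) atTop atTop := by
    have e1 : Tendsto (fun x : ℝ => x / Real.log x) atTop atTop := by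
      have h1 : Tendsto (fun x : ℝ => Real.log x / x) atTop (𝓝 0) := by
        have := Real.isLittleO_log_id_atTop.tendsto_div_nhds_zero
        simpa using this
      have h2 : ∀ᶠ x : ℝ in atTop, Real.log x / x ∈ Ioi (0:ℝ) := by
        filter_upwards [eventually_gt_atTop (1:ℝ)] with x hx
        have := Real.log_pos hx
        have : 0 < x := by linarith
        rw [mem_Ioi]
        positivity
      have h3 := tendsto_nhdsWithin_iff.2 ⟨h1, h2⟩
      have h4 := tendsto_inv_nhdsGT_zero.comp h3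
      refine h4.congr fun x => ?_
      simp [inv_div]
    exact e1.comp hl
  have ev1 : ∀ᶠ T : ℝ in atTop, C4 * Real.log T ^ (16 : ℝ) ≤ T ^ (1 / 20000 : ℝ) := by
    have a1 := isLittleO_log_rpow_rpow_atTop (16:ℝ) (show (0:ℝ) < 1 / 20000 by norm_num)
    filter_upwards [a1.bound (show (0:ℝ) < C4⁻¹ by positivity), eventually_gt_atTop (1:ℝ)] with T b1 b2
    have hL : 0 < Real.log T := Real.log_pos b2
    rw [Real.norm_of_nonneg (by positivity), Real.norm_of_nonneg (by positivity), ← div_eq_inv_mul, le_div_iff₀ hC4] at b1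
    linarith
  obtain ⟨D, hD⟩ : ∃ D : ℝ, D = 2 * (2 + C1) + C5 + 1 := ⟨_, rfl⟩
  have hD0 : 0 < D := by rw [hD]; positivity
  have ev2 : ∀ᶠ T : ℝ in atTop, 16 * (max 0 (max (max c3 c5) (max c6 (max c7 c8))) + 16 + 16 * (D / κ) ^ 2) ≤
      Real.log T / Real.log (Real.log T) := hq.eventually_ge_atTop _
  obtain ⟨T9, hT9⟩ := eventually_atTop.mp (ev1.and (ev2.and ((hll.eventually_ge_atTop 1).and
    ((hl.eventually_ge_atTop 1).and (eventually_ge_atTop 64)))))
  refine ⟨κ / 16, max (max (max T1 T2) (max T3 T5)) (max (max T6 T7) (max T8 T9)), by positivity, fun T hT e he => ?_⟩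
  simp only [max_le_iff] at hT
  obtain ⟨⟨⟨hT1, hT2⟩, hT3, hT5⟩, ⟨hT6, hT7⟩, hT8, hT9'⟩ := hT
  obtain ⟨f1, f2, f3, f4, f5⟩ := hT9 T hT9'
  have hT0 : 0 < T := by linarith
  have hL0 : 0 < Real.log T := by linarith
  have hLL0 : 0 < Real.log (Real.log T) := by linarith
  obtain ⟨q, hq⟩ : ∃ q : ℝ, q = Real.log T / Real.log (Real.log T) := ⟨_, rfl⟩
  rw [← hq] at f2 ⊢
  obtain ⟨c, hc⟩ : ∃ c : ℝ, c = q / 16 := ⟨_, rfl⟩
  have hmax : max 0 (max (max c3 c5) (max c6 (max c7 c8))) + 16 + 16 * (D / κ) ^ 2 ≤ c := by rw [hc]; linarith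
  have hm1 := le_max_left 0 (max (max c3 c5) (max c6 (max c7 c8)))
  have hm2 := le_max_right 0 (max (max c3 c5) (max c6 (max c7 c8)))
  have hm3 : 0 ≤ 16 * (D / κ) ^ 2 := by positivity
  have hc16 : 16 ≤ c ∧ 16 * (D / κ) ^ 2 ≤ c := ⟨by linarith, by linarith⟩
  have hcc : max (max c3 c5) (max c6 (max c7 c8)) ≤ c := by linarith
  simp only [max_le_iff] at hcc
  obtain ⟨⟨hc3, hc5⟩, hc6, hc7, hc8⟩ := hcc
  have hclog : c * Real.log (Real.log T) = Real.log T / 16 := by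
    rw [hc, hq]
    field_simp
  have hA : ∀ c0 : ℝ, c0 ≤ c → Adm c0 T c := fun c0 h => ⟨h, hclog.le⟩
  have hc0 : 0 < c := by
    by_contra hneg
    push Not at hneg
    have h1 : c * Real.log (Real.log T) ≤ 0 := mul_nonpos_of_nonpos_of_nonneg hneg hLL0.le
    rw [hclog] at h1
    linarith
  have hXe : XX T c = 16 * Real.log (Real.log T) := by
    unfold XX
    rw [div_eq_iff hc0.ne']
    linarith
  have hX1 : 16 ≤ XX T c := by rw [hXe]; linarith
  have hX0 : 0 < XX T c := by linarith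
  obtain ⟨v, hv⟩ : ∃ v : ℝ, v = √c / 10 := ⟨_, rfl⟩
  have hv2 : v ^ 2 = c / 100 := by
    rw [hv, div_pow, Real.sq_sqrt hc0.le]
    norm_num
  have hv0 : 0 < v := by
    rw [hv]
    have := Real.sqrt_pos.2 hc0
    positivity
  obtain ⟨τ, hτ⟩ : ∃ τ : ℝ, τ = 3 / 2 * T := ⟨_, rfl⟩
  obtain ⟨u, hu⟩ : ∃ u : ℝ, u = 2 * e / XX T c := ⟨_, rfl⟩
  have habs : |e| = 1 := by rcases he with rfl | rfl <;> simp
  have hee : e * e = 1 := by rcases he with rfl | rfl <;> norm_num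
  have hu1 : |u| ≤ 1 := by
    rw [hu, abs_div, abs_mul, habs, abs_of_pos hX0, div_le_one hX0]
    norm_num
    linarith
  have hu2 : |u| ≤ √T := hu1.trans (Real.one_le_sqrt.2 (by linarith))
  obtain ⟨hPi, hPm⟩ := hP T hT3 c (hA c3 hc3) v hv2 hv0 τ e he
  rw [← hu] at hPi hPm
  obtain ⟨hEi, hEb⟩ := hEm T hT5 c (hA c5 hc5) v hv2 τ u (by rw [hτ]; linarith) (by rw [hτ]; linarith) hu2
  have hWt := hW T hT6 c (hA c6 hc6) v hv2 τ
  obtain ⟨hwi, hwb⟩ := hmass T hT7 c (hA c7 hc7) v hv2 τ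
  have hV1 : 1 ≤ VV T c v := (hrr T hT8 c (hA c8 hc8) v hv2 0).2
  have hV0 : 0 < VV T c v := by linarith
  have hw0 : ∀ t, 0 ≤ wt T c v τ t := fun t => wt_nonneg hT0 c v τ t
  by_contra hcon
  push Not at hcon
  obtain ⟨m, hm⟩ : ∃ m : ℝ, m = κ / 16 * √q := ⟨_, rfl⟩
  have hm0 : 0 ≤ m := by rw [hm]; positivity
  rw [← hm] at hcon
  have hcon' : ∀ z, T + 1 ≤ z → z ≤ 2 * T - 1 → -m ≤ e * Sn z := fun z h1 h2 => (hcon z h1 h2).le
  have hXlog : XX T c ≤ Real.log T / 16 := by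
    unfold XX
    rw [div_le_div_iff₀ hc0 (by norm_num)]
    exact mul_le_mul_of_nonneg_left hc16.1 hL0.le
  have hexp : C4 * Real.exp (XX T c) ≤ T ^ (1 / 20000 : ℝ) := by
    have h1 : Real.exp (XX T c) = Real.log T ^ (16:ℝ) := by
      rw [hXe, Real.rpow_def_of_pos hL0, mul_comm]
    rw [h1]
    exact f1
  -- the pointwise bound
  obtain ⟨B, hB⟩ : ∃ B : Set ℝ, B = {t : ℝ | T / 4 < |t - τ|} := ⟨_, rfl⟩
  have hBm : MeasurableSet B := by
    rw [hB]
    exact measurableSet_lt measurable_const (by fun_prop)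
  have hpt : ∀ t, e * (wt T c v τ t * Pr (XX T c) (t + u)) ≤ (m + 1 + C1) * wt T c v τ t +
      wt T c v τ t * |Edge (XX T c) (t + u)| + T ^ (1 / 20000 : ℝ) * B.indicator (wt T c v τ) t := by
    intro t
    have hwt := hw0 t
    have hEd : 0 ≤ |Edge (XX T c) (t + u)| := abs_nonneg _
    by_cases ht : t ∈ B
    · rw [indicator_of_mem ht]
      have h1 : e * Pr (XX T c) (t + u) ≤ T ^ (1 / 20000 : ℝ) := by
        have h2 := hPb (XX T c) (t + u) (by linarith)
        have h3 : |e * Pr (XX T c) (t + u)| ≤ T ^ (1 / 20000 : ℝ) := by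
          rw [abs_mul, habs, one_mul]
          exact h2.trans hexp
        exact (le_abs_self _).trans h3
      have h4 := mul_le_mul_of_nonneg_left h1 hwt
      have h5 : 0 ≤ (m + 1 + C1) * wt T c v τ t := by positivity
      have h6 : 0 ≤ wt T c v τ t * |Edge (XX T c) (t + u)| := by positivity
      linarith
    · rw [indicator_of_notMem ht, mul_zero, add_zero]
      rw [hB, mem_ofPred_eq, not_lt, abs_le, hτ] at ht
      have hu3 := abs_le.1 hu1
      have h1 := hF T (XX T c) (t + u) hT1 (by linarith) hXlog (by linarith [ht.1, hu3.1]) (by linarith [ht.2, hu3.2])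
      have h2 := hDS T hT2 (XX T c) (t + u) e m (by linarith) (by linarith [ht.1, hu3.1]) (by linarith [ht.2, hu3.2]) he hm0 hcon'
      have h3 : e * Pr (XX T c) (t + u) ≤ m + 1 + C1 + |Edge (XX T c) (t + u)| := by
        have h4 : |e * (DS (XX T c) (t + u) + Pr (XX T c) (t + u) + Edge (XX T c) (t + u) / (2 * Real.pi))| ≤ C1 := by
          rw [abs_mul, habs, one_mul]
          exact h1
        have h5 : |e * (Edge (XX T c) (t + u) / (2 * Real.pi))| ≤ |Edge (XX T c) (t + u)| := by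
          rw [abs_mul, habs, one_mul, abs_div, abs_of_pos (by positivity : 0 < 2 * Real.pi)]
          exact div_le_self hEd (by linarith)
        have h6 := (abs_le.1 h4).2
        have h7 := (abs_le.1 h5).1
        have h8 : e * (DS (XX T c) (t + u) + Pr (XX T c) (t + u) + Edge (XX T c) (t + u) / (2 * Real.pi)) =
          e * DS (XX T c) (t + u) + e * Pr (XX T c) (t + u) + e * (Edge (XX T c) (t + u) / (2 * Real.pi)) := by ring
        rw [h8] at h6
        linarith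
      calc e * (wt T c v τ t * Pr (XX T c) (t + u)) = wt T c v τ t * (e * Pr (XX T c) (t + u)) := by ring
        _ ≤ wt T c v τ t * (m + 1 + C1 + |Edge (XX T c) (t + u)|) := mul_le_mul_of_nonneg_left h3 hwt
        _ = _ := by ring
  have i1 := hwi.const_mul (m + 1 + C1)
  have i3 : Integrable (fun t => T ^ (1 / 20000 : ℝ) * B.indicator (wt T c v τ) t) := (hwi.indicator hBm).const_mul _
  have i12 : Integrable (fun t => (m + 1 + C1) * wt T c v τ t + wt T c v τ t * |Edge (XX T c) (t + u)|) := i1.add hEi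
  have i123 : Integrable (fun t => (m + 1 + C1) * wt T c v τ t +
      wt T c v τ t * |Edge (XX T c) (t + u)| + T ^ (1 / 20000 : ℝ) * B.indicator (wt T c v τ) t) := i12.add i3
  have h1 : ∫ t, e * (wt T c v τ t * Pr (XX T c) (t + u)) ≤ ∫ t, ((m + 1 + C1) * wt T c v τ t +
      wt T c v τ t * |Edge (XX T c) (t + u)| + T ^ (1 / 20000 : ℝ) * B.indicator (wt T c v τ) t) :=
    integral_mono (hPi.const_mul e) i123 hpt
  rw [integral_add i12 i3, integral_add i1 hEi, integral_const_mul, integral_const_mul, integral_const_mul,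
    integral_indicator hBm] at h1
  have h2 : ∫ t, wt T c v τ t ≤ 2 * VV T c v := by
    have := (abs_le.mp hwb).2
    have h4 : VV T c v / T ≤ VV T c v := div_le_self hV0.le (by linarith)
    linarith
  have h3 : T ^ (1 / 20000 : ℝ) * ∫ t in B, wt T c v τ t ≤ VV T c v := by
    rw [hB]
    calc _ ≤ T ^ (1 / 20000 : ℝ) * (T ^ (-(1 / 20000) : ℝ) * VV T c v) := by gcongr
      _ = VV T c v := by
          rw [← mul_assoc, ← Real.rpow_add hT0]
          norm_num
  have h4 : κ * √c * VV T c v ≤ (2 * (m + 1 + C1) + C5 + 1) * VV T c v := by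
    have h5 : (m + 1 + C1) * ∫ t, wt T c v τ t ≤ (m + 1 + C1) * (2 * VV T c v) := by gcongr
    linarith
  have h5 := le_of_mul_le_mul_right h4 hV0
  -- comparison
  have h6 : √q = 4 * √c := by
    have : q = 4 ^ 2 * c := by rw [hc]; ring
    rw [this, Real.sqrt_mul (by norm_num), Real.sqrt_sq (by norm_num)]
  have h7 : m = κ / 4 * √c := by rw [hm, h6]; ring
  have h8 : D ≤ κ / 4 * √c := by
    have h9 : 4 * (D / κ) ≤ √c := by
      apply Real.le_sqrt_of_sq_le
      have := hc16.2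
      have h12 : (4 * (D / κ)) ^ 2 = 16 * (D / κ) ^ 2 := by ring
      rw [h12]
      exact this
    have h10 := mul_le_mul_of_nonneg_left h9 (show 0 ≤ κ / 4 by positivity)
    have h11 : κ / 4 * (4 * (D / κ)) = D := by field_simp
    linarith
  have h9 : 0 < κ * √c := by
    have := Real.sqrt_pos.2 hc0
    positivity
  rw [hD] at h8
  rw [h7] at h5
  linarith

end Pool.Agent.Helper49.SO
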