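import Pool.Agent.Helper49.SO.Avg

/-!
# SO9: the formula for the smoothed error term
-/

set_option autoImplicit false
open MeasureTheory Set Filter Topology
open Pool.Agent.Helper57.Zeta Pool.Agent.Helper57.LH Pool.Agent.Helper57.ED Pool.Agent.Helper54.LG
open Pool.Agent.Helper93.UG (zc)
open Pool.Agent.Helper24.WS (Edge)

namespace Pool.Agent.Helper49.SO

theorem formula_of (hMM : StMM) (hmn : StMn) (hE : StEdge) : ∃ C T₀ : ℝ, 0 < C ∧ ∀ T X y : ℝ, T₀ ≤ T → 1 / 2 ≤ X →
    X ≤ Real.log T / 16 → T / 2 ≤ y → y ≤ 3 * T → |DS X y + Pr X y + Edge X y / (2 * Real.pi)| ≤ C := by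
  obtain ⟨C1, hC1, hQ⟩ := QQ_const_of hMM hmn
  obtain ⟨C2, hC2, hE⟩ := hE
  obtain ⟨T₁, hA⟩ := avg_diff
  have hpi := Real.pi_pos
  have hpi3 := Real.pi_gt_three
  -- size of the edge term
  have e1 : ∀ᶠ T : ℝ in atTop, C2 * (Real.log T * T ^ (1 / 16 : ℝ)) * Real.log (8 * T) ≤ T := by
    have a1 : (fun T : ℝ => Real.log T) =o[atTop] fun T : ℝ => T ^ (1 / 16 : ℝ) := isLittleO_log_rpow_atTop (by norm_num)
    have a2 := a1.bound (show (0:ℝ) < 1 by norm_num)
    have a3 : ∀ᶠ T : ℝ in atTop, 2 * C2 ≤ T ^ (1 / 16 : ℝ) := (tendsto_rpow_atTop (by norm_num)).eventually_ge_atTop _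
    filter_upwards [a2, a3, eventually_ge_atTop (8:ℝ)] with T b2 b3 b4
    have hT0 : 0 < T := by linarith
    have hl : 0 ≤ Real.log T := Real.log_nonneg (by linarith)
    rw [one_mul, Real.norm_of_nonneg hl, Real.norm_of_nonneg (by positivity)] at b2
    have b5 : Real.log (8 * T) ≤ 2 * Real.log T := by
      rw [Real.log_mul (by norm_num) hT0.ne']
      have := Real.log_le_log (by norm_num) b4
      linarith
    have b6 : T ^ (1 / 16 : ℝ) ≤ T ^ (1 / 4 : ℝ) := Real.rpow_le_rpow_of_exponent_le (by linarith) (by norm_num)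
    obtain ⟨R, hR⟩ : ∃ R, R = T ^ (1 / 16 : ℝ) := ⟨_, rfl⟩
    have hR0 : 0 < R := by rw [hR]; positivity
    rw [← hR] at b2 b3 ⊢
    have hRT : R ^ 4 ≤ T := by
      rw [hR, ← Real.rpow_natCast, ← Real.rpow_mul hT0.le]
      calc T ^ (1 / 16 * ((4:ℕ):ℝ)) ≤ T ^ (1:ℝ) := Real.rpow_le_rpow_of_exponent_le (by linarith) (by norm_num)
        _ = T := Real.rpow_one T
    have b7 : 0 ≤ Real.log (8 * T) := Real.log_nonneg (by linarith)
    calc C2 * (Real.log T * R) * Real.log (8 * T) ≤ C2 * (R * R) * (2 * R) := by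
          gcongr
          linarith
      _ = (2 * C2) * R ^ 3 := by ring
      _ ≤ R * R ^ 3 := by gcongr
      _ = R ^ 4 := by ring
      _ ≤ T := hRT
  have e2 : ∀ᶠ T : ℝ in atTop, 4 * T ^ (1 / 16 : ℝ) ≤ T := by
    have a3 : ∀ᶠ T : ℝ in atTop, 4 ≤ T ^ (15 / 16 : ℝ) := (tendsto_rpow_atTop (by norm_num)).eventually_ge_atTop _
    filter_upwards [a3, eventually_gt_atTop (0:ℝ)] with T b3 b4
    calc 4 * T ^ (1 / 16 : ℝ) ≤ T ^ (15 / 16 : ℝ) * T ^ (1 / 16 : ℝ) := by gcongr
      _ = T := by rw [← Real.rpow_add b4]; norm_num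
  have e3 : ∀ᶠ T : ℝ in atTop, Real.exp 8 ≤ T := eventually_ge_atTop _
  obtain ⟨T₂, hT₂⟩ := eventually_atTop.mp (e1.and (e2.and e3))
  obtain ⟨B, hB⟩ : ∃ B : ℝ, B = |QQ (1 / 2) 1| + C1 * (1 + Real.exp (1 / 2 / 2)) := ⟨_, rfl⟩
  have hB0 : 0 ≤ B := by rw [hB]; positivity
  refine ⟨2 * C1 + B + 10, max T₁ T₂, by positivity, fun T X y hT hX hXT hy1 hy2 => ?_⟩
  obtain ⟨f1, f2, f3⟩ := hT₂ T ((le_max_right _ _).trans hT)
  have hA := hA T ((le_max_left _ _).trans hT)
  have hT8 : 8 ≤ T := by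
    have := Real.add_one_le_exp (8:ℝ)
    linarith
  have hT0 : 0 < T := by linarith
  have hlog : 8 ≤ Real.log T := by
    have := Real.log_le_log (Real.exp_pos 8) f3
    rwa [Real.log_exp] at this
  have hX0 : 0 < X := by linarith
  have hy0 : 1 ≤ y := by linarith
  have hexp : Real.exp X ≤ T ^ (1 / 16 : ℝ) := by
    rw [Real.rpow_def_of_pos hT0]
    apply Real.exp_le_exp.2
    linarith
  have hexp2 : Real.exp (X / 2) ≤ T ^ (1 / 16 : ℝ) := (Real.exp_le_exp.2 (by linarith)).trans hexp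
  have hexp3 : Real.exp (X / 2) / y ≤ 1 := by
    rw [div_le_one (by linarith)]
    linarith
  -- averages over `[y, y + T]`
  have hQQ : ∀ X' : ℝ, 1 / 2 ≤ X' → X' ≤ Real.log T / 16 → IntervalIntegrable (QQ X') volume y (y + T) ∧
      |(∫ z in y..(y + T), QQ X' z) - ∫ z in y..(y + T), Sn z| ≤ 3 * T := by
    intro X' hX1 hX2
    have hX'0 : 0 < X' := by linarith
    obtain ⟨d1, _⟩ := DS_avg hX1 y hT0.le
    have d2 : IntervalIntegrable (Pr X') volume y (y + T) := (PB.Pr_cont X').intervalIntegrable _ _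
    obtain ⟨d3, d4⟩ := hE X' hX1 y T hT0.le
    have e4 : QQ X' = fun z => DS X' z + Pr X' z + 1 / (2 * Real.pi) * Edge X' z := by
      funext z
      unfold QQ
      ring
    refine ⟨by rw [e4]; exact (d1.add d2).add (d3.const_mul _), ?_⟩
    have e5 : ∫ z in y..(y + T), QQ X' z = (∫ z in y..(y + T), DS X' z) + (∫ z in y..(y + T), Pr X' z) +
        1 / (2 * Real.pi) * ∫ z in y..(y + T), Edge X' z := by
      rw [e4, intervalIntegral.integral_add (d1.add d2) (d3.const_mul _), intervalIntegral.integral_add d1 d2,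
        intervalIntegral.integral_const_mul]
    have h1 := hA X' y hX1 hy0 (by linarith)
    have h2 := PB.Pr_int hX'0 y (y + T)
    have h3 : Real.exp X' ≤ T ^ (1 / 16 : ℝ) := by
      rw [Real.rpow_def_of_pos hT0]
      apply Real.exp_le_exp.2
      linarith
    have h4 : |1 / (2 * Real.pi) * ∫ z in y..(y + T), Edge X' z| ≤ T := by
      rw [abs_mul, abs_of_pos (by positivity)]
      have h5 : 1 / (2 * Real.pi) ≤ 1 := by
        rw [div_le_one (by positivity)]
        linarith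
      have h6 : C2 * (X' * Real.exp (X' / 2)) * Real.log (4 + |y| + T) ≤
          C2 * (Real.log T * T ^ (1 / 16 : ℝ)) * Real.log (8 * T) := by
        have h7 : Real.exp (X' / 2) ≤ T ^ (1 / 16 : ℝ) := (Real.exp_le_exp.2 (by linarith)).trans h3
        have h8 : X' ≤ Real.log T := by linarith
        have h9 : 4 + |y| + T ≤ 8 * T := by
          rw [abs_of_pos (by linarith)]
          linarith
        have h10 : 0 ≤ Real.log (4 + |y| + T) := Real.log_nonneg (by linarith [abs_nonneg y])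
        have h11 : 0 < 4 + |y| + T := by positivity
        gcongr
      calc _ ≤ 1 * |∫ z in y..(y + T), Edge X' z| := mul_le_mul_of_nonneg_right h5 (abs_nonneg _)
        _ = |∫ z in y..(y + T), Edge X' z| := one_mul _
        _ ≤ _ := d4.trans (h6.trans f1)
    rw [e5]
    rw [abs_le] at h1 h2 h4 ⊢
    constructor <;> linarith [h1.1, h1.2, h2.1, h2.2, h4.1, h4.2]
  have hconst : ∀ (f : ℝ → ℝ) (a D : ℝ), IntervalIntegrable f volume y (y + T) → (∀ z, y ≤ z → |f z - a| ≤ D) →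
      |(∫ z in y..(y + T), f z) - T * a| ≤ D * T := by
    intro f a D hf hfa
    have e6 : (∫ z in y..(y + T), f z) - T * a = ∫ z in y..(y + T), (f z - a) := by
      rw [intervalIntegral.integral_sub hf (by simp), intervalIntegral.integral_const]
      simp
    rw [e6, ← Real.norm_eq_abs]
    have := intervalIntegral.norm_integral_le_of_norm_le_const (a := y) (b := y + T) (C := D) (f := fun z => f z - a) (by
      intro z hz
      rw [uIoc_of_le (by linarith)] at hz
      rw [Real.norm_eq_abs]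
      exact hfa z hz.1.le)
    rwa [add_sub_cancel_left, abs_of_pos hT0] at this
  obtain ⟨i1, i2⟩ := hQQ X hX hXT
  obtain ⟨i3, i4⟩ := hQQ (1 / 2) le_rfl (by linarith)
  have k1 := hconst (QQ X) (QQ X y) (2 * C1) i1 (fun z hz => by
    have h1 := hQ X y z hX hy0 hz
    have h2 : C1 * (1 + Real.exp (X / 2) / y) ≤ C1 * (1 + 1) := by gcongr
    linarith)
  have k2 := hconst (QQ (1 / 2)) 0 B i3 (fun z hz => by
    have h1 := hQ (1 / 2) 1 z le_rfl le_rfl (by linarith)
    rw [div_one] at h1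
    rw [sub_zero, hB]
    have h2 : |QQ (1 / 2) z| ≤ |QQ (1 / 2) z - QQ (1 / 2) 1| + |QQ (1 / 2) 1| := by
      have := abs_add_le (QQ (1 / 2) z - QQ (1 / 2) 1) (QQ (1 / 2) 1)
      rwa [sub_add_cancel] at this
    linarith)
  rw [mul_zero, sub_zero] at k2
  have k3 : |T * QQ X y| ≤ (2 * C1 + B + 6) * T := by
    rw [abs_le] at k1 k2 i2 i4 ⊢
    constructor <;> nlinarith [k1.1, k1.2, k2.1, k2.2, i2.1, i2.2, i4.1, i4.2]
  rw [abs_mul, abs_of_pos hT0, mul_comm] at k3
  have k4 := le_of_mul_le_mul_right k3 hT0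
  have e7 : DS X y + Pr X y + Edge X y / (2 * Real.pi) = QQ X y := rfl
  rw [e7]
  linarith

end Pool.Agent.Helper49.SO
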