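import Pool.Agent.Helper49.SO.Final

/-!
# SO: `S(t)` is as large as `κ √(log t / log log t)`, with both signs
-/

set_option autoImplicit false
open MeasureTheory Set Filter Topology
open Pool.Agent.Helper93.UG (zc)
open Pool.Agent.Helper56.UG (zc_mono zc_union)

namespace Pool.Agent.Helper49.SO

lemma q_lim : Tendsto (fun T : ℝ => Real.log T / Real.log (Real.log T)) atTop atTop := by
  have e1 : Tendsto (fun x : ℝ => x / Real.log x) atTop atTop := by
    have h1 : Tendsto (fun x : ℝ => Real.log x / x) atTop (𝓝 0) := by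
      have := Real.isLittleO_log_id_atTop.tendsto_div_nhds_zero
      simpa using this
    have h2 : ∀ᶠ x : ℝ in atTop, Real.log x / x ∈ Ioi (0:ℝ) := by
      filter_upwards [eventually_gt_atTop (1:ℝ)] with x hx
      have := Real.log_pos hx
      have : 0 < x := by linarith
      rw [mem_Ioi]
      positivity
    have h3 := tendsto_nhdsWithin_iff.2 ⟨h1, h2⟩
    have h4 := tendsto_inv_nhdsGT_zero.comp h3
    refine h4.congr fun x => ?_
    simp [inv_div]
  exact e1.comp Real.tendsto_log_atTop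

lemma Sn_pos {t : ℝ} (ht : 0 ≤ t) : Sn t = (zc (Ico 0 t) : ℝ) - mn t := by
  unfold Sn Nn
  rw [Ico_eq_empty (not_lt.2 ht), zc_empty]
  simp

theorem s_omega : ∃ κ T₀ : ℝ, 0 < κ ∧ ∀ T : ℝ, T₀ ≤ T →
    (∃ t : ℝ, T ≤ t ∧ t ≤ 2 * T ∧ κ * √(Real.log T / Real.log (Real.log T)) ≤
      (zc (Ioc 0 t) : ℝ) - t / (2 * Real.pi) * Real.log (t / (2 * Real.pi * Real.exp 1))) ∧
    ∃ t : ℝ, T ≤ t ∧ t ≤ 2 * T ∧
      (zc (Ioc 0 t) : ℝ) - t / (2 * Real.pi) * Real.log (t / (2 * Real.pi * Real.exp 1)) ≤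
        -(κ * √(Real.log T / Real.log (Real.log T))) := by
  obtain ⟨κ, T1, hκ, hc⟩ := core
  obtain ⟨C0, hC0⟩ : ∃ C0 : ℝ, C0 = (zc (Icc 0 0) : ℝ) := ⟨_, rfl⟩
  have hC00 : 0 ≤ C0 := by rw [hC0]; exact Nat.cast_nonneg _
  have hpi := Real.pi_pos
  have hpi3 := Real.pi_gt_three
  have ev : ∀ᶠ T : ℝ in atTop, (2 * (C0 + 1) / κ) ^ 2 ≤ Real.log T / Real.log (Real.log T) :=
    q_lim.eventually_ge_atTop _
  obtain ⟨T2, hT2⟩ := eventually_atTop.mp (ev.and (eventually_ge_atTop 1))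
  refine ⟨κ / 2, max T1 T2, by positivity, fun T hT => ?_⟩
  obtain ⟨h1, h2⟩ := max_le_iff.1 hT
  obtain ⟨f1, f2⟩ := hT2 T h2
  have hT0 : 0 < T := by linarith
  have hsq : 2 * (C0 + 1) / κ ≤ √(Real.log T / Real.log (Real.log T)) := Real.le_sqrt_of_sq_le f1
  obtain ⟨s, hs⟩ : ∃ s : ℝ, s = √(Real.log T / Real.log (Real.log T)) := ⟨_, rfl⟩
  rw [← hs] at hsq
  rw [← hs]
  have hks : C0 + 1 ≤ κ / 2 * s := by
    rw [div_le_iff₀ hκ] at hsq
    linarith
  constructor
  · obtain ⟨t, ht1, ht2, ht3⟩ := hc T h1 (-1) (Or.inr rfl)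
    rw [← hs, Sn_pos (by linarith)] at ht3
    refine ⟨t, by linarith, by linarith, ?_⟩
    have h3 : (zc (Ico 0 t) : ℝ) ≤ C0 + zc (Ioc 0 t) := by
      rw [hC0]
      have e : zc (Icc 0 0 ∪ Ioc 0 t) = zc (Icc 0 0) + zc (Ioc 0 t) := by
        apply zc_union (a := 0) (b := t)
        · intro x hx; exact ⟨hx.1, hx.2.trans (by linarith)⟩
        · intro x hx; exact ⟨hx.1.le, hx.2⟩
        · rw [Set.disjoint_left]
          intro x hx hx2
          exact absurd hx.2 (not_le.2 hx2.1)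
      have h4 : zc (Ico 0 t) ≤ zc (Icc 0 0 ∪ Ioc 0 t) := by
        apply zc_mono (a := 0) (b := t)
        · intro x hx
          rcases eq_or_lt_of_le hx.1 with h | h
          · left; rw [← h]; simp
          · right; exact ⟨h, hx.2.le⟩
        · rintro x (hx | hx)
          · exact ⟨hx.1, hx.2.trans (by linarith)⟩
          · exact ⟨hx.1.le, hx.2⟩
      rw [e] at h4
      exact_mod_cast h4
    have e : mn t = t / (2 * Real.pi) * Real.log (t / (2 * Real.pi * Real.exp 1)) := rfl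
    rw [← e]
    linarith
  · obtain ⟨t, ht1, ht2, ht3⟩ := hc T h1 1 (Or.inl rfl)
    rw [← hs, Sn_pos (by linarith)] at ht3
    have hh0 : 0 < 1 / T := by positivity
    have hh1 : 1 / T ≤ 1 := by rw [div_le_one hT0]; exact f2
    refine ⟨t - 1 / T, by linarith, by linarith, ?_⟩
    have ht0 : 0 < t - 1 / T := by linarith
    have h3 : (zc (Ioc 0 (t - 1 / T)) : ℝ) ≤ zc (Ico 0 t) := by
      have h4 : zc (Ioc 0 (t - 1 / T)) ≤ zc (Ico 0 t) := by
        apply zc_mono (a := 0) (b := t)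
        · intro x hx
          exact ⟨hx.1.le, by linarith [hx.2]⟩
        · intro x hx
          exact ⟨hx.1, hx.2.le⟩
      exact_mod_cast h4
    have h5 := Pool.Agent.Helper49.UG.Mt_diff ht0 hh0.le
    rw [sub_add_cancel] at h5
    have htt : 0 < t := by linarith
    have h6 : 1 / T / (2 * Real.pi) * Real.log (t / (2 * Real.pi)) ≤ 1 := by
      have h7 : Real.log (t / (2 * Real.pi)) ≤ t / (2 * Real.pi) :=
        (Real.log_le_sub_one_of_pos (by positivity)).trans (by linarith)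
      have h8 : t / (2 * Real.pi) ≤ T := by
        rw [div_le_iff₀ (by positivity)]
        nlinarith
      calc 1 / T / (2 * Real.pi) * Real.log (t / (2 * Real.pi)) ≤ 1 / T / (2 * Real.pi) * T :=
            mul_le_mul_of_nonneg_left (h7.trans h8) (by positivity)
        _ = 1 / (2 * Real.pi) := by field_simp
        _ ≤ 1 := by rw [div_le_one (by positivity)]; linarith
    have e : ∀ x, Pool.Agent.Helper49.UG.Mt x = x / (2 * Real.pi) * Real.log (x / (2 * Real.pi * Real.exp 1)) :=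
      fun _ => rfl
    have e' : mn t = Pool.Agent.Helper49.UG.Mt t := rfl
    rw [← e]
    rw [e'] at ht3
    linarith

end Pool.Agent.Helper49.SO
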