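import Pool.Agent.Helper49.SO.Base

/-!
# SO6: the smoothed error term
-/

set_option autoImplicit false
open MeasureTheory Set Filter Topology
open Pool.Agent.Helper57.Zeta Pool.Agent.Helper57.LH Pool.Agent.Helper57.ED Pool.Agent.Helper54.LG
open Pool.Agent.Helper93.UG (zc)

namespace Pool.Agent.Helper49.SO

lemma kX_nonneg {X : ℝ} (hX : 0 ≤ X) (s : ℝ) : 0 ≤ kX X s := by
  unfold kX
  have := qk_zero_nonneg (X * s)
  have := Real.pi_pos
  positivity

lemma kX_cont (X : ℝ) : Continuous (kX X) := by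
  unfold kX
  exact continuous_const.mul ((qk_cont 0).comp (by fun_prop))

lemma kX_even (X s : ℝ) : kX X (-s) = kX X s := by
  unfold kX
  rw [mul_neg, qk_neg_right]

lemma kX_mass {X : ℝ} (hX : 0 < X) : Integrable (kX X) ∧ ∫ s, kX X s = 1 := by
  obtain ⟨h1, h2, _⟩ := Pool.Agent.Helper24.UG.qk_mass hX
  exact ⟨h1, h2⟩

private lemma jap : Integrable (fun r : ℝ => (1 + |r|) ^ (-(33 / 32) : ℝ)) := by
  have h := integrable_one_add_norm (E := ℝ) (μ := volume) (r := 33 / 32) (by simp; norm_num)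
  simpa only [Real.norm_eq_abs] using h

private lemma qk_pow (r : ℝ) : qk 0 r * (1 + |r|) ^ (31 / 32 : ℝ) ≤ 42 * (1 + |r|) ^ (-(33 / 32) : ℝ) := by
  have h1 := qk_bound 0 r
  rw [Real.cosh_zero, mul_one] at h1
  have h2 : qk 0 r ≤ 42 / (1 + |r|) ^ 2 := by
    refine ((le_abs_self _).trans h1).trans ?_
    rw [div_le_div_iff₀ (by positivity) (by positivity)]
    have := sq_abs r
    nlinarith [sq_nonneg (1 - |r|), abs_nonneg r]
  have hp : 0 < 1 + |r| := by positivity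
  calc qk 0 r * (1 + |r|) ^ (31 / 32 : ℝ) ≤ 42 / (1 + |r|) ^ 2 * (1 + |r|) ^ (31 / 32 : ℝ) := by gcongr
    _ = 42 * ((1 + |r|) ^ (-2 : ℝ) * (1 + |r|) ^ (31 / 32 : ℝ)) := by
        rw [Real.rpow_neg hp.le, Real.rpow_two]
        ring
    _ = 42 * (1 + |r|) ^ (-(33 / 32) : ℝ) := by
        rw [← Real.rpow_add hp]
        norm_num

theorem kX_mom : ∃ C : ℝ, 0 < C ∧ ∀ X : ℝ, 1 / 2 ≤ X → Integrable (fun s => kX X s * (1 + |s|) ^ (31 / 32 : ℝ)) ∧
    ∫ s, kX X s * (1 + |s|) ^ (31 / 32 : ℝ) ≤ C := by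
  have hpi := Real.pi_pos
  have hpi3 := Real.pi_gt_three
  obtain ⟨C, hC⟩ : ∃ C : ℝ, C = ∫ r : ℝ, 2 * (42 * (1 + |r|) ^ (-(33 / 32) : ℝ)) := ⟨_, rfl⟩
  have hC0 : 0 ≤ C := by
    rw [hC]
    exact integral_nonneg fun r => by positivity
  refine ⟨C + 1, by positivity, fun X hX => ?_⟩
  have hX0 : 0 < X := by linarith
  -- change of variables
  have hpt : ∀ s : ℝ, kX X s * (1 + |s|) ^ (31 / 32 : ℝ) ≤ X * (2 * (42 * (1 + |X * s|) ^ (-(33 / 32) : ℝ))) := by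
    intro s
    have h1 : (1 + |s|) ^ (31 / 32 : ℝ) ≤ 2 * (1 + |X * s|) ^ (31 / 32 : ℝ) := by
      have h2 : 1 + |s| ≤ 2 * (1 + |X * s|) := by
        rw [abs_mul, abs_of_pos hX0]
        nlinarith [abs_nonneg s]
      have h3 : (2:ℝ) ^ (31 / 32 : ℝ) ≤ 2 := by
        calc (2:ℝ) ^ (31 / 32 : ℝ) ≤ 2 ^ (1:ℝ) := Real.rpow_le_rpow_of_exponent_le (by norm_num) (by norm_num)
          _ = 2 := Real.rpow_one 2
      calc (1 + |s|) ^ (31 / 32 : ℝ) ≤ (2 * (1 + |X * s|)) ^ (31 / 32 : ℝ) :=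
            Real.rpow_le_rpow (by positivity) h2 (by norm_num)
        _ = 2 ^ (31 / 32 : ℝ) * (1 + |X * s|) ^ (31 / 32 : ℝ) := Real.mul_rpow (by norm_num) (by positivity)
        _ ≤ _ := by gcongr
    have h4 := qk_pow (X * s)
    have h5 := qk_zero_nonneg (X * s)
    unfold kX
    calc X / (2 * Real.pi) * qk 0 (X * s) * (1 + |s|) ^ (31 / 32 : ℝ) ≤
          X / (2 * Real.pi) * qk 0 (X * s) * (2 * (1 + |X * s|) ^ (31 / 32 : ℝ)) := by gcongr
      _ = X / Real.pi * (qk 0 (X * s) * (1 + |X * s|) ^ (31 / 32 : ℝ)) := by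
          field_simp
      _ ≤ X * (2 * (qk 0 (X * s) * (1 + |X * s|) ^ (31 / 32 : ℝ))) := by
          have h6 : X / Real.pi ≤ X * 2 := by
            rw [div_le_iff₀ hpi]
            nlinarith
          have h7 : 0 ≤ qk 0 (X * s) * (1 + |X * s|) ^ (31 / 32 : ℝ) := by positivity
          nlinarith [mul_le_mul_of_nonneg_right h6 h7]
      _ ≤ _ := by gcongr
  have hi : Integrable (fun s : ℝ => X * (2 * (42 * (1 + |X * s|) ^ (-(33 / 32) : ℝ)))) := by
    have h1 : Integrable (fun r : ℝ => 2 * (42 * (1 + |r|) ^ (-(33 / 32) : ℝ))) := (jap.const_mul 42).const_mul 2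
    exact (h1.comp_mul_left' hX0.ne').const_mul X
  have hv : ∫ s : ℝ, X * (2 * (42 * (1 + |X * s|) ^ (-(33 / 32) : ℝ))) = C := by
    rw [integral_const_mul, hC]
    have := Measure.integral_comp_mul_left (fun r : ℝ => 2 * (42 * (1 + |r|) ^ (-(33 / 32) : ℝ))) X
    rw [this, abs_of_pos (inv_pos.2 hX0), smul_eq_mul, ← mul_assoc, mul_inv_cancel₀ hX0.ne', one_mul]
  have hn : ∀ s : ℝ, 0 ≤ kX X s * (1 + |s|) ^ (31 / 32 : ℝ) := fun s =>
    mul_nonneg (kX_nonneg hX0.le s) (by positivity)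
  have hi2 : Integrable (fun s => kX X s * (1 + |s|) ^ (31 / 32 : ℝ)) := by
    refine hi.mono' ?_ (Eventually.of_forall fun s => ?_)
    · apply Continuous.aestronglyMeasurable
      apply (kX_cont X).mul
      apply Continuous.rpow_const (by fun_prop)
      intro s
      left
      positivity
    · rw [Real.norm_of_nonneg (hn s)]
      exact hpt s
  refine ⟨hi2, ?_⟩
  have := integral_mono hi2 hi hpt
  rw [hv] at this
  linarith

lemma one_add_mul (y s : ℝ) : 1 + |y + s| ≤ (1 + |y|) * (1 + |s|) := by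
  have h1 := abs_add_le y s
  nlinarith [mul_nonneg (abs_nonneg y) (abs_nonneg s)]

theorem DS_int {X : ℝ} (hX : 1 / 2 ≤ X) (y : ℝ) : Integrable (fun s => kX X s * Sn (y + s)) := by
  obtain ⟨C, hC, hS⟩ := Sn_bd
  obtain ⟨C', hC', hk⟩ := kX_mom
  refine (((hk X hX).1).const_mul (C * (1 + |y|) ^ (15 / 16 : ℝ))).mono' ?_ (Eventually.of_forall fun s => ?_)
  · exact (kX_cont X).aestronglyMeasurable.mul (Sn_meas.comp (measurable_const_add y)).aestronglyMeasurable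
  · have hk0 := kX_nonneg (show 0 ≤ X by linarith) s
    rw [norm_mul, Real.norm_of_nonneg hk0, Real.norm_eq_abs]
    have h1 : |Sn (y + s)| ≤ C * (1 + |y|) ^ (15 / 16 : ℝ) * (1 + |s|) ^ (31 / 32 : ℝ) := by
      calc |Sn (y + s)| ≤ C * (1 + |y + s|) ^ (15 / 16 : ℝ) := hS _
        _ ≤ C * ((1 + |y|) * (1 + |s|)) ^ (15 / 16 : ℝ) := by
            gcongr
            exact one_add_mul y s
        _ = C * (1 + |y|) ^ (15 / 16 : ℝ) * (1 + |s|) ^ (15 / 16 : ℝ) := by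
            rw [Real.mul_rpow (by positivity) (by positivity)]
            ring
        _ ≤ _ := mul_le_mul_of_nonneg_left
            (Real.rpow_le_rpow_of_exponent_le (by linarith [abs_nonneg s]) (by norm_num)) (by positivity)
    calc kX X s * |Sn (y + s)| ≤ kX X s * (C * (1 + |y|) ^ (15 / 16 : ℝ) * (1 + |s|) ^ (31 / 32 : ℝ)) := by gcongr
      _ = _ := by ring

theorem DS_sub {X y₁ y₂ : ℝ} (hX : 1 / 2 ≤ X) (h : y₁ ≤ y₂) :
    Integrable (fun s => kX X s * (mn (y₂ + s) - mn (y₁ + s))) ∧ DS X y₂ - DS X y₁ =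
    X / (2 * Real.pi) * (∫ w in y₁..y₂, Pool.Agent.Helper69.UG.NX X w) - ∫ s, kX X s * (mn (y₂ + s) - mn (y₁ + s)) := by
  have hX0 : 0 < X := by linarith
  have h1 := DS_int hX y₁
  have h2 := DS_int hX y₂
  obtain ⟨w1, w2⟩ := Pool.Agent.Helper24.UG.window_gen hX0 ((y₁ + y₂) / 2) (h := (y₂ - y₁) / 2) (by linarith)
  have e1 : ∀ s : ℝ, (zc (Ico ((y₁ + y₂) / 2 + s - (y₂ - y₁) / 2) ((y₁ + y₂) / 2 + s + (y₂ - y₁) / 2)) : ℝ) =
      Nn (y₂ + s) - Nn (y₁ + s) := by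
    intro s
    rw [Nn_sub (by linarith : y₁ + s ≤ y₂ + s)]
    congr 3 <;> ring
  simp_rw [e1] at w1 w2
  have e2 : ∀ s : ℝ, kX X s * (mn (y₂ + s) - mn (y₁ + s)) =
      X / (2 * Real.pi) * qk 0 (X * s) * (Nn (y₂ + s) - Nn (y₁ + s)) - (kX X s * Sn (y₂ + s) - kX X s * Sn (y₁ + s)) := by
    intro s
    unfold Sn kX
    ring
  have hi : Integrable (fun s => kX X s * (mn (y₂ + s) - mn (y₁ + s))) := by
    simp_rw [e2]
    exact w1.sub (h2.sub h1)
  refine ⟨hi, ?_⟩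
  have e3 : ∫ w in y₁..y₂, Pool.Agent.Helper69.UG.NX X w =
      ∫ w in (-((y₂ - y₁) / 2))..((y₂ - y₁) / 2), Pool.Agent.Helper69.UG.NX X ((y₁ + y₂) / 2 + w) := by
    rw [intervalIntegral.integral_comp_add_left (fun w => Pool.Agent.Helper69.UG.NX X w)]
    congr 1 <;> ring
  rw [e3, ← w2]
  unfold DS
  rw [← integral_sub h2 h1, ← integral_sub w1 hi]
  congr 1
  funext s
  rw [e2]
  ring

end Pool.Agent.Helper49.SO
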